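import Pool.Agent.H94.G4T.M115
import Pool.Agent.H94.G4T.M21

/-!
# G3 R PrmU: local primitives with uniform constants

As `PrmA`, with a uniform radius and `‖Ψ x‖ ≤ C exp (-c |y₀|²)`, for `y₀ ∈ Gd D δ`.  `UC`: a straight chart with constants `R`, `K` for the point `v` over `y₀`; `uc_base`: the straight chart at `(w, v₀)` works for all near points;
`uc_unif`: uniform constants by compactness (bounded `y₀`, ultrafilter) and translation.  Bound: `‖A p‖ ≤ sup ‖tc α χ (ms c ρ)‖` (mean value inequality from `IsPrim.der`, `IsPrim.zero`) and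
`‖tc α χ (ms c ρ) p‖ ≤ C₀ K ^ (k + 2) exp (-c₀ ‖ms c ρ p‖²)` by `Dec` and `VForm.det`, `‖ms c ρ p‖ ≥ ‖y₀‖ - K`.
-/

set_option autoImplicit false

open Topology Filter Metric

namespace Pool.Agent.G3.R

open Pool.Agent.H36.BP (EN fs wd)
open Pool.Agent.H14.PP (IsCone CurveAt Tan)
open Pool.Agent.H62.EF (MN pr)
open Pool.Agent.AD (Vd Chart Charts IsGerm)
open Pool.Agent.TG
open Pool.Agent.G3.C (Gc nv nd nv_pr)
open Pool.Agent.G3.A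

variable {N k : ℕ} {X : Set (EN N)} {Λ : AddSubgroup (Vd (k + 1))} {u : EN N → Vd (k + 1)} {D B Bad : Set (Vd (k + 1))} {a : Vd (k + 1)}

/-- uniform constants -/
theorem uc_unif (G : Geo X Λ u D B) {δ : ℝ} (hδ : 0 < δ) : ∃ R K : ℝ, 0 < R ∧ ∀ y₀ ∈ Gd D δ, ∀ v ∈ X, ‖v‖ = 1 → u v - y₀ ∈ Λ →
    ∃ (χ : Chart (k + 2) X) (c : Vd (k + 1)) (ρ : ℝ), UC Λ u χ c ρ y₀ v R K := by
  obtain ⟨R₂, -, hR₂⟩ := G.lat.cpt
  have key : ∃ n : ℕ, ∀ y₀ ∈ Gd D δ, ‖y₀‖ ≤ R₂ → ∀ v ∈ X, ‖v‖ = 1 → u v - y₀ ∈ Λ →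
      ∃ (χ : Chart (k + 2) X) (c : Vd (k + 1)) (ρ : ℝ), UC Λ u χ c ρ y₀ v (1 / ((n : ℝ) + 1)) n := by
    by_contra hcon
    push Not at hcon
    choose y hy hyR v hv hv1 huv hno using hcon
    have h𝒰 : ((hyperfilter ℕ : Ultrafilter ℕ) : Filter ℕ) ≤ atTop := Nat.hyperfilter_le_atTop
    have hKc : IsCompact (closedBall (0 : Vd (k + 1)) R₂ ∩ Gd D δ) := (isCompact_closedBall 0 R₂).inter_right (gd_closed D δ)
    have hle : (((hyperfilter ℕ : Ultrafilter ℕ).map y : Ultrafilter (Vd (k + 1))) : Filter (Vd (k + 1))) ≤ 𝓟 (closedBall (0 : Vd (k + 1)) R₂ ∩ Gd D δ) := by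
      rw [le_principal_iff]
      exact Filter.mem_map.2 (Filter.univ_mem' fun n => ⟨by rw [mem_closedBall, dist_zero_right]; exact hyR n, hy n⟩)
    obtain ⟨w, hw, hlim⟩ := hKc.ultrafilter_le_nhds _ hle
    have hle2 : (((hyperfilter ℕ : Ultrafilter ℕ).map v : Ultrafilter (EN N)) : Filter (EN N)) ≤ 𝓟 (X ∩ sphere (0 : EN N) 1) := by
      rw [le_principal_iff]
      exact Filter.mem_map.2 (Filter.univ_mem' fun n => ⟨hv n, by rw [mem_sphere_zero_iff_norm]; exact hv1 n⟩)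
    obtain ⟨v₀, hv₀, hlim2⟩ := (compact_unit G.cone).ultrafilter_le_nhds _ hle2
    have hyw : Tendsto y (hyperfilter ℕ : Ultrafilter ℕ) (𝓝 w) := hlim
    have hvw : Tendsto v (hyperfilter ℕ : Ultrafilter ℕ) (𝓝 v₀) := hlim2
    have huw : u v₀ - w ∈ Λ := lim_mem G.lat G.tor hv₀.1 hvw hyw (Filter.Eventually.of_forall fun n => ⟨hv n, huv n⟩)
    obtain ⟨χ, ρ, R₀, K, -, -, hR₀, hUC⟩ := uc_base G (gd_notMem hδ hw.2) hv₀.1 huw
    have h1 : ∀ᶠ n in ((hyperfilter ℕ : Ultrafilter ℕ) : Filter ℕ), y n ∈ ball w R₀ := hyw.eventually (ball_mem_nhds w hR₀)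
    have h2 : ∀ᶠ n in ((hyperfilter ℕ : Ultrafilter ℕ) : Filter ℕ), v n ∈ ball v₀ R₀ := hvw.eventually (ball_mem_nhds v₀ hR₀)
    have h3 : ∀ᶠ n : ℕ in ((hyperfilter ℕ : Ultrafilter ℕ) : Filter ℕ), 1 / ((n : ℝ) + 1) ≤ R₀ :=
      h𝒰 ((tendsto_one_div_add_atTop_nhds_zero_nat (𝕜 := ℝ)).eventually_le_const hR₀)
    have h4 : ∀ᶠ n : ℕ in ((hyperfilter ℕ : Ultrafilter ℕ) : Filter ℕ), K ≤ (n : ℝ) :=
      h𝒰 (tendsto_natCast_atTop_atTop.eventually_ge_atTop K)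
    obtain ⟨n, hn1, hn2, hn3, hn4⟩ := (h1.and (h2.and (h3.and h4))).exists
    refine hno n χ w ρ ((hUC (y n) ?_ (v n) ?_).mono hn3 hn4)
    · rwa [mem_ball, dist_eq_norm] at hn1
    · rwa [mem_ball, dist_eq_norm] at hn2
  obtain ⟨n, hn⟩ := key
  refine ⟨1 / ((n : ℝ) + 1), n, by positivity, fun y₀ hy₀ v hv hv1 huv => ?_⟩
  obtain ⟨l, hl, hyl⟩ := hR₂ y₀
  have h1 : y₀ - l ∈ Gd D δ := by
    rw [sub_eq_add_neg]
    exact (G.gd_add δ (Λ.neg_mem hl)).2 hy₀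
  have h2 : u v - (y₀ - l) ∈ Λ := by
    have e : u v - (y₀ - l) = u v - y₀ + l := by abel
    rw [e]
    exact Λ.add_mem huv hl
  obtain ⟨χ, c, ρ, h⟩ := hn (y₀ - l) h1 hyl v hv hv1 h2
  have h3 := h.add hl
  rw [sub_add_cancel] at h3
  exact ⟨χ, c + l, ρ, h3⟩

/-- the mean value inequality for a primitive -/
theorem prim_bd {α : VForm X Λ u} {χ : Chart (k + 2) X} {υ : Vd (k + 2) → Vd (k + 1)} {A : Vd (k + 2) → ℂ} (hA : IsPrim α χ υ A) {M : ℝ}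
    (hM : ∀ p ∈ closedBall (0 : Vd (k + 2)) 1, ‖tc α χ υ p‖ ≤ M) {p : Vd (k + 2)} (hp : p ∈ closedBall (0 : Vd (k + 2)) 1) : ‖A p‖ ≤ M := by
  have hpn : ‖p‖ ≤ 1 := by rwa [mem_closedBall_zero_iff] at hp
  have hmem : ∀ θ ∈ Set.Icc (0 : ℝ) 1, Pool.Agent.TG.pP θ p ∈ closedBall (0 : Vd (k + 2)) 1 := by
    intro θ hθ
    rw [mem_closedBall_zero_iff]
    exact (Pool.Agent.TG.pP_norm hθ.1 hθ.2 p).trans hpn
  have hM0 : 0 ≤ M := (norm_nonneg _).trans (hM p hp)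
  have hd : ∀ θ ∈ Set.Icc (0 : ℝ) 1, HasDerivAt (fun θ : ℝ => A (Pool.Agent.TG.pP θ p)) (p 0 * tc α χ υ (Pool.Agent.TG.pP θ p)) θ := by
    intro θ hθ
    have h1 : HasFDerivAt A (fderiv ℂ A (Pool.Agent.TG.pP θ p)) (Pool.Agent.TG.pP θ p) :=
      (hA.an _ (closedBall_subset_ball one_lt_two (hmem θ hθ))).differentiableAt.hasFDerivAt
    have h2 : (fun z : ℂ => p + (z - 1) • (Pi.single 0 (p 0) : Vd (k + 2))) (θ : ℂ) = Pool.Agent.TG.pP θ p := by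
      funext i
      refine Fin.cases ?_ ?_ i
      · rw [Pool.Agent.TG.pP_zero]
        simp
        ring
      · intro j
        rw [Pool.Agent.TG.pP_succ]
        simp
    have h3 : HasDerivAt (fun z : ℂ => p + (z - 1) • (Pi.single 0 (p 0) : Vd (k + 2))) (Pi.single 0 (p 0)) (θ : ℂ) := by
      have h4 := (((hasDerivAt_id (θ : ℂ)).sub_const (1 : ℂ)).smul_const (Pi.single 0 (p 0) : Vd (k + 2))).const_add p
      rw [one_smul] at h4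
      exact h4
    have h4 : HasDerivAt (fun z : ℂ => A (p + (z - 1) • (Pi.single 0 (p 0) : Vd (k + 2)))) (fderiv ℂ A (Pool.Agent.TG.pP θ p) (Pi.single 0 (p 0))) (θ : ℂ) := by
      rw [← h2] at h1 ⊢
      exact h1.comp_hasDerivAt (θ : ℂ) h3
    have h5 : fderiv ℂ A (Pool.Agent.TG.pP θ p) (Pi.single 0 (p 0)) = p 0 * tc α χ υ (Pool.Agent.TG.pP θ p) := by
      have h6 : (Pi.single 0 (p 0) : Vd (k + 2)) = p 0 • (Pi.single 0 1 : Vd (k + 2)) := by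
        rw [← Pi.single_smul, smul_eq_mul, mul_one]
      rw [h6, map_smul, hA.der _ (closedBall_subset_ball one_lt_two (hmem θ hθ)), smul_eq_mul]
    rw [h5] at h4
    have h7 := h4.comp_ofReal
    refine h7.congr_of_eventuallyEq (Filter.Eventually.of_forall fun t => ?_)
    show A (Pool.Agent.TG.pP t p) = A (p + ((t : ℂ) - 1) • (Pi.single 0 (p 0) : Vd (k + 2)))
    congr 1
    funext i
    refine Fin.cases ?_ ?_ i
    · rw [Pool.Agent.TG.pP_zero]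
      simp
      ring
    · intro j
      rw [Pool.Agent.TG.pP_succ]
      simp
  have hmv := norm_image_sub_le_of_norm_deriv_le_segment_01' (f := fun θ : ℝ => A (Pool.Agent.TG.pP θ p)) (f' := fun θ => p 0 * tc α χ υ (Pool.Agent.TG.pP θ p)) (C := M)
    (fun θ hθ => (hd θ hθ).hasDerivWithinAt) (fun θ hθ => by
      have h1 := hM _ (hmem θ ⟨hθ.1, hθ.2.le⟩)
      rw [norm_mul]
      calc ‖p 0‖ * ‖tc α χ υ (Pool.Agent.TG.pP θ p)‖ ≤ 1 * M := mul_le_mul ((norm_le_pi_norm p 0).trans hpn) h1 (norm_nonneg _) zero_le_one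
        _ = M := one_mul _)
  have h1 : Pool.Agent.TG.pP 1 p = p := by
    funext i
    refine Fin.cases ?_ ?_ i
    · rw [Pool.Agent.TG.pP_zero]
      simp
    · intro j
      rw [Pool.Agent.TG.pP_succ]
  have h0 : A (Pool.Agent.TG.pP 0 p) = 0 := by
    refine hA.zero _ (closedBall_subset_ball one_lt_two (hmem 0 ⟨le_rfl, zero_le_one⟩)) ?_
    rw [Pool.Agent.TG.pP_zero]
    simp
  simp only [h1, h0, sub_zero] at hmv
  exact hmv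

/-- the bound of the coefficient -/
theorem tc_dec {α : VForm X Λ u} {c₀ C₀ : ℝ} (hα : Dec α c₀ C₀) {χ : Chart (k + 2) X} {υ : Vd (k + 2) → Vd (k + 1)} {p : Vd (k + 2)}
    (hp : p ∈ ball (0 : Vd (k + 2)) 2) (hl : u (χ.σ p) - υ p ∈ Λ) {K : ℝ} (hK : 0 < K) (hb : ∀ i, ‖fderiv ℂ χ.σ p (Pi.single i 1)‖ ≤ K * ‖χ.σ p‖) :
    ‖tc α χ υ p‖ ≤ K ^ (k + 2) * (C₀ * Real.exp (-(c₀ * ‖υ p‖ ^ 2))) := by
  have hKC : (K : ℂ) ≠ 0 := by exact_mod_cast hK.ne'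
  set t : Fin (k + 2) → EN N := fun i => fderiv ℂ χ.σ p (Pi.single i ((K : ℂ)⁻¹)) with ht
  have hts : ∀ i, t i = (K : ℂ)⁻¹ • fderiv ℂ χ.σ p (Pi.single i 1) := fun i => by
    rw [ht]
    show fderiv ℂ χ.σ p (Pi.single i ((K : ℂ)⁻¹)) = _
    rw [← map_smul]
    congr 1
    rw [← Pi.single_smul, smul_eq_mul, mul_one]
  have htan : ∀ i, Tan X (χ.σ p) (t i) := fun i => tan_sigma χ hp _
  have h1 := hα (υ p) (χ.σ p) (χ.σ_mem p hp).1 hl t htan (fun i => by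
    rw [hts, norm_smul, norm_inv, Complex.norm_real, Real.norm_of_nonneg hK.le, inv_mul_le_iff₀ hK]
    exact hb i)
  have h2 := α.det (υ p) (χ.σ p) (χ.σ_mem p hp).1 hl t htan ((K : ℂ) • (1 : Matrix (Fin (k + 2)) (Fin (k + 2)) ℂ))
  have h3 : (fun i => ∑ j, ((K : ℂ) • (1 : Matrix (Fin (k + 2)) (Fin (k + 2)) ℂ)) i j • t j) = fun i => fderiv ℂ χ.σ p (Pi.single i 1) := by
    funext i
    rw [Finset.sum_eq_single i]
    · rw [Matrix.smul_apply, Matrix.one_apply_eq, smul_eq_mul, mul_one, hts, smul_smul, mul_inv_cancel₀ hKC, one_smul]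
    · intro j _ hj
      rw [Matrix.smul_apply, Matrix.one_apply_ne hj.symm, smul_zero, zero_smul]
    · intro hi
      exact absurd (Finset.mem_univ i) hi
  rw [h3, Matrix.det_smul, Matrix.det_one, mul_one, Fintype.card_fin] at h2
  have h4 : tc α χ υ p = (K : ℂ) ^ (k + 2) * α.toFun (υ p) (χ.σ p) t := h2
  rw [h4, norm_mul, norm_pow, Complex.norm_real, Real.norm_of_nonneg hK.le]
  exact mul_le_mul_of_nonneg_left h1 (pow_nonneg hK.le _)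

theorem exists_prm_unif (G : Geo X Λ u D B) {α : VForm X Λ u} {c₀ C₀ : ℝ} (hα : Dec α c₀ C₀) (hc : 0 < c₀) (hC : 0 < C₀) {δ : ℝ} (hδ : 0 < δ) :
    ∃ R C c : ℝ, 0 < R ∧ 0 < C ∧ 0 < c ∧ ∀ y₀ ∈ Gd D δ, ∀ v ∈ X, ‖v‖ = 1 → u v - y₀ ∈ Λ → ∃ Ψ : EN N → ℂ, Prm α y₀ v R Ψ ∧
      ∀ x ∈ ball v R, ‖Ψ x‖ ≤ C * Real.exp (-(c * ‖y₀‖ ^ 2)) := by
  obtain ⟨R, K₀, hR, hUC⟩ := uc_unif G hδ
  set K : ℝ := max K₀ 1 with hKdef
  have hK : 0 < K := lt_max_of_lt_right one_pos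
  refine ⟨R, K ^ (k + 1) * (K ^ (k + 2) * (C₀ * Real.exp (c₀ * K ^ 2))), c₀ / 2, hR, by positivity, by positivity, fun y₀ hy₀ v hv hv1 huv => ?_⟩
  obtain ⟨χ, c, ρ, h'⟩ := hUC y₀ hy₀ v hv hv1 huv
  have h := h'.mono le_rfl (le_max_left K₀ 1)
  rw [← hKdef] at h
  obtain ⟨A, hA⟩ := exists_prim α χ h.str
  refine ⟨_, h.prm G hR hv hv1 huv hA, fun x hx => ?_⟩
  obtain ⟨-, h2⟩ := h.mem x hx
  have hρ := h.str.pos
  have hM : ∀ p ∈ closedBall (0 : Vd (k + 2)) 1, ‖tc α χ (ms c ρ) p‖ ≤ K ^ (k + 2) * (C₀ * (Real.exp (c₀ * K ^ 2) * Real.exp (-(c₀ / 2 * ‖y₀‖ ^ 2)))) := by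
    intro p hp
    have hpb := closedBall_subset_ball one_lt_two hp
    refine (tc_dec hα hpb (h.str.lift p hpb) hK (h.bd p hp)).trans ?_
    refine mul_le_mul_of_nonneg_left (mul_le_mul_of_nonneg_left ?_ hC.le) (pow_nonneg hK.le _)
    rw [← Real.exp_add, Real.exp_le_exp]
    have h3 := h.near p hp
    have h4 : ‖y₀‖ ≤ ‖ms c ρ p‖ + K := by
      have e : y₀ = ms c ρ p - (ms c ρ p - y₀) := by abel
      have h5 := norm_sub_le (ms c ρ p) (ms c ρ p - y₀)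
      rw [← e] at h5
      linarith
    have h6 : ‖y₀‖ ^ 2 ≤ 2 * ‖ms c ρ p‖ ^ 2 + 2 * K ^ 2 := by
      have h7 : ‖y₀‖ ^ 2 ≤ (‖ms c ρ p‖ + K) ^ 2 := pow_le_pow_left₀ (norm_nonneg _) h4 2
      nlinarith [sq_nonneg (‖ms c ρ p‖ - K)]
    nlinarith
  have h3 := prim_bd hA hM h2
  have h4 : ‖((ρ : ℂ) ^ (k + 1))‖ = ρ ^ (k + 1) := by
    rw [norm_pow, Complex.norm_real, Real.norm_of_nonneg hρ.le]
  rw [norm_div, h4]
  have h5 : (ρ ^ (k + 1))⁻¹ ≤ K ^ (k + 1) := by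
    rw [← inv_pow]
    refine pow_le_pow_left₀ (inv_nonneg.2 hρ.le) ?_ _
    rw [inv_le_iff_one_le_mul₀ hρ]
    exact h.rho
  calc ‖A (χ.q x)‖ / ρ ^ (k + 1) = (ρ ^ (k + 1))⁻¹ * ‖A (χ.q x)‖ := by rw [div_eq_mul_inv, mul_comm]
    _ ≤ K ^ (k + 1) * (K ^ (k + 2) * (C₀ * (Real.exp (c₀ * K ^ 2) * Real.exp (-(c₀ / 2 * ‖y₀‖ ^ 2))))) :=
      mul_le_mul h5 h3 (norm_nonneg _) (pow_nonneg hK.le _)
    _ = K ^ (k + 1) * (K ^ (k + 2) * (C₀ * Real.exp (c₀ * K ^ 2))) * Real.exp (-(c₀ / 2 * ‖y₀‖ ^ 2)) := by ring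

end Pool.Agent.G3.R
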