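import Pool.Agent.H94.G4T.M16

/-!
# G3 R Nv: the affine charts `nv v`, `nv v (pr x) = x / ⟨v, x⟩`

`nv v m = (nd v m)⁻¹ • (m v)`, `nd v (pr v) = 1`, `pr v` fixes `v` for unit vectors `v` (`nv_pr`, `nd_pr_ne` in `G3/C/EDefs`).
`dd_nv`: the change of the chart is the composition with `x ↦ x / ⟨v, x⟩`, holomorphic and bounded by `4 / κ` on `ball v' (κ / 2)`, if `κ ≤ |⟨v, v'⟩|`: `dd_comp`, `dd_comp_le`.
-/

set_option autoImplicit false

open Topology Filter Metric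

namespace Pool.Agent.G3.R

open Pool.Agent.H36.BP (EN)
open Pool.Agent.H62.EF (MN pr)
open Pool.Agent.G3.C (nv nd nv_pr)

variable {N : ℕ}

theorem inner_self_unit {v : EN N} (hv : ‖v‖ = 1) : (inner ℂ v v : ℂ) = 1 := by
  rw [inner_self_eq_norm_sq_to_K, hv]
  norm_num

private theorem inner_eq (x y : EN N) : (inner ℂ x y : ℂ) = ∑ j, (starRingEnd ℂ) (x j) * y j := by
  rw [PiLp.inner_apply]
  refine Finset.sum_congr rfl fun j _ => ?_
  rw [RCLike.inner_apply]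
  ring

/-- the vector `m v` -/
private noncomputable def mvec (v : EN N) (m : MN N) : EN N := WithLp.toLp 2 fun i => ∑ j, m (i, j) * v j

private theorem nv_eq (v : EN N) (m : MN N) : nv v m = (inner ℂ v (mvec v m) : ℂ)⁻¹ • mvec v m := by
  unfold nv mvec
  congr 2
  rw [inner_eq]
  refine Finset.sum_congr rfl fun i _ => ?_
  rw [Finset.mul_sum]
  exact Finset.sum_congr rfl fun j _ => by ring

private theorem norm_mvec_le (v : EN N) (m : MN N) : ‖mvec v m‖ ≤ ‖m‖ * ‖v‖ := by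
  have h0 : 0 ≤ ‖m‖ * ‖v‖ := by positivity
  refine le_of_sq_le_sq ?_ h0
  rw [mul_pow, EuclideanSpace.norm_sq_eq, EuclideanSpace.norm_sq_eq, EuclideanSpace.norm_sq_eq, Fintype.sum_prod_type, Finset.sum_mul]
  refine Finset.sum_le_sum fun i _ => ?_
  have h1 : ‖mvec v m i‖ ≤ ∑ j, ‖m (i, j)‖ * ‖v j‖ := by
    have h2 : mvec v m i = ∑ j, m (i, j) * v j := rfl
    rw [h2]
    refine (norm_sum_le Finset.univ fun j => m (i, j) * v j).trans (Finset.sum_le_sum fun j _ => ?_)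
    rw [norm_mul]
  calc ‖mvec v m i‖ ^ 2 ≤ (∑ j, ‖m (i, j)‖ * ‖v j‖) ^ 2 := pow_le_pow_left₀ (norm_nonneg _) h1 2
    _ ≤ (∑ j, ‖m (i, j)‖ ^ 2) * ∑ j, ‖v j‖ ^ 2 := Finset.sum_mul_sq_le_sq_mul_sq _ _ _

private theorem mvec_sub (v : EN N) (m m' : MN N) : mvec v m - mvec v m' = mvec v (m - m') := by
  ext i
  simp only [mvec, PiLp.sub_apply, sub_mul, Finset.sum_sub_distrib]

private theorem mvec_pr {v : EN N} (hv : ‖v‖ = 1) : mvec v (pr v) = v := by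
  ext i
  have h1 := inner_self_unit hv
  rw [inner_eq] at h1
  simp only [mvec, pr, hv]
  calc ∑ j, v i * (starRingEnd ℂ) (v j) / ((1 ^ 2 : ℝ) : ℂ) * v j = v i * ∑ j, (starRingEnd ℂ) (v j) * v j := by
        rw [Finset.mul_sum]
        refine Finset.sum_congr rfl fun j _ => ?_
        norm_num
        ring
    _ = v i := by rw [h1, mul_one]

/-- `nv v m` is near `v` if `m` is near `pr v`, uniformly in `v` -/
theorem nv_near {η : ℝ} (hη : 0 < η) : ∃ ε : ℝ, 0 < ε ∧ ∀ v : EN N, ‖v‖ = 1 → ∀ m : MN N, dist m (pr v) ≤ ε → ‖nv v m - v‖ < η := by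
  refine ⟨min (1 / 2) (η / 8), by positivity, ?_⟩
  intro v hv m hm
  have hm1 : dist m (pr v) ≤ 1 / 2 := hm.trans (min_le_left _ _)
  have hm2 : dist m (pr v) ≤ η / 8 := hm.trans (min_le_right _ _)
  rw [dist_eq_norm] at hm1 hm2
  have h1 : ‖mvec v m - v‖ ≤ ‖m - pr v‖ := by
    have h2 := norm_mvec_le v (m - pr v)
    rw [← mvec_sub, mvec_pr hv, hv, mul_one] at h2
    exact h2
  have h3 : ‖(inner ℂ v (mvec v m) : ℂ) - 1‖ ≤ ‖m - pr v‖ := by
    have h4 : (inner ℂ v (mvec v m) : ℂ) - 1 = inner ℂ v (mvec v m - v) := by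
      rw [inner_sub_right, inner_self_unit hv]
    rw [h4]
    refine (norm_inner_le_norm _ _).trans ?_
    rw [hv, one_mul]
    exact h1
  have h5 : 1 / 2 ≤ ‖(inner ℂ v (mvec v m) : ℂ)‖ := by
    have h6 := norm_sub_norm_le (1 : ℂ) (inner ℂ v (mvec v m))
    rw [norm_one, norm_sub_rev] at h6
    linarith
  have h7 : (inner ℂ v (mvec v m) : ℂ) ≠ 0 := by
    intro h8
    rw [h8, norm_zero] at h5
    norm_num at h5
  have h9 : nv v m - v = (inner ℂ v (mvec v m) : ℂ)⁻¹ • ((mvec v m - v) - ((inner ℂ v (mvec v m) : ℂ) - 1) • v) := by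
    rw [nv_eq, sub_smul, one_smul, sub_sub_sub_cancel_right, smul_sub, inv_smul_smul₀ h7]
  rw [h9, norm_smul, norm_inv]
  have h10 : ‖(mvec v m - v) - ((inner ℂ v (mvec v m) : ℂ) - 1) • v‖ ≤ η / 8 + η / 8 := by
    refine (norm_sub_le _ _).trans (add_le_add (h1.trans hm2) ?_)
    rw [norm_smul, hv, mul_one]
    exact h3.trans hm2
  have h11 : ‖(inner ℂ v (mvec v m) : ℂ)‖⁻¹ ≤ 2 := by
    rw [inv_le_comm₀ (by linarith) (by norm_num)]
    linarith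
  calc ‖(inner ℂ v (mvec v m) : ℂ)‖⁻¹ * ‖(mvec v m - v) - ((inner ℂ v (mvec v m) : ℂ) - 1) • v‖ ≤ 2 * (η / 8 + η / 8) :=
        mul_le_mul h11 h10 (norm_nonneg _) (by norm_num)
    _ < η := by linarith

/-- the chart for `pr x` near `pr v` -/
theorem inner_near {η : ℝ} (hη : 0 < η) : ∃ ε : ℝ, 0 < ε ∧ ∀ v : EN N, ‖v‖ = 1 → ∀ x : EN N, x ≠ 0 → dist (pr x) (pr v) ≤ ε →
    inner ℂ v x ≠ (0 : ℂ) ∧ (1 - η) * ‖x‖ ≤ ‖(inner ℂ v x : ℂ)‖ ∧ ‖(inner ℂ v x : ℂ)‖ ≤ ‖x‖ := by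
  refine ⟨min 1 η, by positivity, ?_⟩
  intro v hv x hx hd
  have hv0 : v ≠ 0 := by
    rintro rfl
    rw [norm_zero] at hv
    exact zero_ne_one hv
  have hd1 : dist (pr x) (pr v) ≤ 1 := hd.trans (min_le_left _ _)
  have hd2 : dist (pr x) (pr v) ≤ η := hd.trans (min_le_right _ _)
  have hd0 : 0 ≤ dist (pr x) (pr v) := dist_nonneg
  have hx0 : 0 < ‖x‖ := norm_pos_iff.mpr hx
  have h1 := Pool.Agent.H62.EF.norm_inner_sq hv0 hx
  rw [hv, one_pow, one_mul, dist_comm] at h1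
  set t : ℝ := 1 - dist (pr x) (pr v) ^ 2 / 2 with ht
  have ht1 : t ≤ 1 := by
    have : 0 ≤ dist (pr x) (pr v) ^ 2 := by positivity
    linarith
  have ht2 : 1 / 2 ≤ t := by nlinarith
  have ht3 : 1 - η ≤ t := by nlinarith
  have h2 : t * ‖x‖ ≤ ‖(inner ℂ v x : ℂ)‖ := by
    refine le_of_sq_le_sq ?_ (norm_nonneg _)
    rw [h1]
    nlinarith [mul_nonneg (sub_nonneg.mpr ht1) (by positivity : 0 ≤ ‖x‖ ^ 2 * t)]
  have h3 : 0 < ‖(inner ℂ v x : ℂ)‖ := lt_of_lt_of_le (by positivity) h2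
  refine ⟨norm_pos_iff.mp h3, (mul_le_mul_of_nonneg_right ht3 hx0.le).trans h2, ?_⟩
  have h4 := norm_inner_le_norm (𝕜 := ℂ) v x
  rwa [hv, one_mul] at h4

end Pool.Agent.G3.R
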