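import Pool.Agent.H94.G4T.G3.R.Scal
import Pool.Agent.H94.G4T.M91
import Pool.Agent.H94.G4T.M99

/-!
# G3 R Comb: the limit lemma for linear combinations of values on honest curves

Curves `f i n` over `y i n + ℂ a`, `y i n → y₀`, all converging to `g` over `y₀ + ℂ a`, coefficients `c n i`.  `hb1`: the combination kills holomorphic functions of `y` in the limit.  `hb2`: it is bounded by
`C exp (-c |x|²)` over `Gd D (δ / 2)`, in terms of suitable local primitives.  Then its value at a point of the core tends to `0`.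
PROOF: `A.LL` with `E = {z | y₀ + z a ∈ Bad}`, `ν = 1`, `ω` from `LC.strip`, `Rg n = {x | y₀ + x a ∈ Gd D δ}`, and for `z₀ ∉ E` `g z₀ n x = ∑ i, c n i * Tf i n x` with `Tf i` from `exists_scal` (the section `S` and the
radius do not depend on `i`).  The radius `r z₀` is so small that `closedBall z₀ (2 r)` is in the ball of `exists_scal` (so it contains no hit except possibly `z₀`), `r ≤ δ / 4`, and, if `y₀ + z₀ a ∈ Gd D (δ / 2)`, that `hb2` and `hb1`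
(for `h` of `jj_prm` at `z₀`) hold on `ball z₀ (2 r)`; if `z₀` is not a hit, `closedBall z₀ (2 r)` contains no hit.
* h2: `closedBall z₀ (r z₀) ∩ closedBall z₁ (r z₁)`, `z₀ ≠ z₁`, is compact without hits; near each of its points `x` take a `Prm` (`exists_prm` at a unit vector `v ∈ X` with `pr v = g x`) and `jj_prm` twice: the difference is
  `∑ i, c n i * (h₁ - h₀) (y i n + x' a)`, `hb1`.
* h3: if `x ∈ ball z₀ (r z₀)`, `y₀ + x a ∈ Gd D δ` then `y₀ + z₀ a ∈ Gd D (δ / 2)`; `jj_prm` for the `Prm` of `hb2`; the additional term is `≤ ε = exp (-c' (‖z₀‖ + 1)²)` for most `n`.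
* h4: `LC.circ` at `y₀ + z₀ a`, or `LC.ann` if there is `e ∈ E` with `‖z₀ - e‖ < ρ / 2`.
-/

set_option autoImplicit false

open Topology Filter Metric

namespace Pool.Agent.G3.R

open Pool.Agent.H36.BP (EN fs wd)
open Pool.Agent.H14.PP (IsCone CurveAt Tan)
open Pool.Agent.H62.EF (MN pr)
open Pool.Agent.AD (Vd Chart Charts IsGerm)
open Pool.Agent.TG
open Pool.Agent.G3.C (Gc HP nv nd nv_pr)
open Pool.Agent.G3.A

variable {N k : ℕ} {X : Set (EN N)} {Λ : AddSubgroup (Vd (k + 1))} {u : EN N → Vd (k + 1)} {D B Bad : Set (Vd (k + 1))} {a : Vd (k + 1)}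

/-- the combination with the coefficients `c n i` at the points `y i n` kills holomorphic functions, at the point `y₀ + x a` -/
def Kil {ι : Type} (l : Filter ι) (a : Vd (k + 1)) {M : ℕ} (y : Fin M → ι → Vd (k + 1)) (c : ι → Fin M → ℂ) (y₀ : Vd (k + 1)) (x : ℂ) : Prop :=
  ∀ h : Vd (k + 1) → ℂ, AnalyticAt ℂ h (y₀ + x • a) → ∃ t : ℝ, 0 < t ∧ ∀ ε : ℝ, 0 < ε → ∀ᶠ n in l, ∀ x' ∈ ball x t, ‖∑ i, c n i * h (y i n + x' • a)‖ ≤ ε

/-- the integrals from a local section in terms of a local primitive, up to an error which tends to `0` -/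
private theorem comb_prm (G : Geo X Λ u D B) {α : VForm X Λ u} {ι : Type} {𝒰 : Ultrafilter ι} {M : ℕ} {y : Fin M → ι → Vd (k + 1)} {y₀ : Vd (k + 1)}
    (hy : ∀ i, Tendsto (y i) 𝒰 (𝓝 y₀)) {f : Fin M → ι → ℂ → MN N} (hf : ∀ i, ∀ᶠ n in (𝒰 : Filter ι), f i n ∈ Hc X Λ u a (y i n)) {g : ℂ → MN N} (hgc : Continuous g)
    (hlim : ∀ i, Lm D a 𝒰 y₀ (f i) g) {c : ι → Fin M → ℂ} {x₀ : ℂ} (hx₀ : ∀ᶠ x in 𝓝 x₀, y₀ + x • a ∉ D) (hb1 : Kil (𝒰 : Filter ι) a y c y₀ x₀)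
    {S : Vd (k + 1) → EN N} (hS : AnalyticAt ℂ S (y₀ + x₀ • a)) (hSX : ∀ᶠ y in 𝓝 (y₀ + x₀ • a), S y ∈ X ∧ u (S y) - y ∈ Λ) (hSg : pr (S (y₀ + x₀ • a)) = g x₀)
    {Ψ : EN N → ℂ} {v : EN N} {R : ℝ} (hΨ : Prm α (y₀ + x₀ • a) v R Ψ) (hv : pr v = g x₀) :
    ∃ t : ℝ, 0 < t ∧ ∀ ε : ℝ, 0 < ε → ∀ᶠ n in (𝒰 : Filter ι), ∀ x ∈ ball x₀ t,
      ‖(∑ i, c n i * JJ α (y i n + x • a) (pr (S (y i n + x • a))) (f i n x)) - ∑ i, c n i * Ψ (nv v (f i n x))‖ ≤ ε := by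
  obtain ⟨han, ε₀, hε₀, hJ⟩ := jj_prm G hΨ hS hSX (hSg.trans hv.symm)
  obtain ⟨t₁, ht₁, hk⟩ := hb1 _ han
  have e1 : ∀ᶠ x in 𝓝 x₀, dist (g x) (g x₀) < ε₀ / 2 := Metric.tendsto_nhds.1 (hgc.tendsto x₀) _ (by linarith)
  have e2 : ∀ᶠ x in 𝓝 x₀, ‖(x - x₀) • a‖ < ε₀ / 2 := by
    have h1 : Continuous fun x : ℂ => ‖(x - x₀) • a‖ := by fun_prop
    have h2 : (fun x : ℂ => ‖(x - x₀) • a‖) x₀ < ε₀ / 2 := by
      simp only [sub_self, zero_smul, norm_zero]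
      linarith
    exact h1.continuousAt.eventually (isOpen_Iio.mem_nhds h2)
  obtain ⟨t₂, ht₂, h2⟩ := Metric.eventually_nhds_iff_ball.1 (hx₀.and (e1.and e2))
  have hKD : ∀ x ∈ closedBall x₀ (t₂ / 2), y₀ + x • a ∉ D := fun x hx => (h2 x (closedBall_subset_ball (by linarith) hx)).1
  have hun : ∀ᶠ n in (𝒰 : Filter ι), ∀ i, ∀ x ∈ closedBall x₀ (t₂ / 2), dist (f i n x) (g x) ≤ ε₀ / 4 :=
    Filter.eventually_all.2 fun i => (hlim i).unif hgc (isCompact_closedBall _ _) hKD (by linarith)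
  have hyn : ∀ᶠ n in (𝒰 : Filter ι), ∀ i, dist (y i n) y₀ < ε₀ / 2 := Filter.eventually_all.2 fun i => Metric.tendsto_nhds.1 (hy i) _ (by linarith)
  have hfn : ∀ᶠ n in (𝒰 : Filter ι), ∀ i, f i n ∈ Hc X Λ u a (y i n) := Filter.eventually_all.2 hf
  refine ⟨min t₁ (t₂ / 2), lt_min ht₁ (by linarith), fun ε hε => ?_⟩
  filter_upwards [hk ε hε, hun, hyn, hfn] with n h3 h4 h5 h6 x hx
  have hx1 : x ∈ ball x₀ t₁ := ball_subset_ball (min_le_left _ _) hx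
  have hx2 : x ∈ closedBall x₀ (t₂ / 2) := ball_subset_closedBall (ball_subset_ball (min_le_right _ _) hx)
  have hx3 := h2 x (closedBall_subset_ball (by linarith) hx2)
  have h7 : ∀ i, JJ α (y i n + x • a) (pr (S (y i n + x • a))) (f i n x) = Ψ (nv v (f i n x)) - Ψ (nv v (pr (S (y i n + x • a)))) := by
    intro i
    refine (hJ _ ?_ _ (hc_mem (h6 i) x) ?_).2
    · rw [mem_ball, dist_eq_norm]
      have h8 : y i n + x • a - (y₀ + x₀ • a) = (y i n - y₀) + (x - x₀) • a := by rw [sub_smul]; abel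
      rw [h8]
      have h9 := h5 i
      rw [dist_eq_norm] at h9
      exact (norm_add_le _ _).trans_lt (by linarith [hx3.2.2])
    · rw [hv]
      refine (dist_triangle _ (g x) _).trans_lt ?_
      linarith [h4 i x hx2, hx3.2.1]
  have h8 : (∑ i, c n i * JJ α (y i n + x • a) (pr (S (y i n + x • a))) (f i n x)) - ∑ i, c n i * Ψ (nv v (f i n x)) =
      -∑ i, c n i * Ψ (nv v (pr (S (y i n + x • a)))) := by
    rw [← Finset.sum_sub_distrib, ← Finset.sum_neg_distrib]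
    refine Finset.sum_congr rfl fun i _ => ?_
    rw [h7 i]
    ring
  rw [h8, norm_neg]
  exact h3 x hx1

/-- two local sections through the same point -/
private theorem comb_two (G : Geo X Λ u D B) {α : VForm X Λ u} {ι : Type} {𝒰 : Ultrafilter ι} {M : ℕ} {y : Fin M → ι → Vd (k + 1)} {y₀ : Vd (k + 1)}
    (hy : ∀ i, Tendsto (y i) 𝒰 (𝓝 y₀)) {f : Fin M → ι → ℂ → MN N} (hf : ∀ i, ∀ᶠ n in (𝒰 : Filter ι), f i n ∈ Hc X Λ u a (y i n)) {g : ℂ → MN N} (hgc : Continuous g)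
    (hlim : ∀ i, Lm D a 𝒰 y₀ (f i) g) {c : ι → Fin M → ℂ} {x₀ : ℂ} (hx₀ : ∀ᶠ x in 𝓝 x₀, y₀ + x • a ∉ D) (hb1 : Kil (𝒰 : Filter ι) a y c y₀ x₀)
    {S S' : Vd (k + 1) → EN N} (hS : AnalyticAt ℂ S (y₀ + x₀ • a)) (hSX : ∀ᶠ y in 𝓝 (y₀ + x₀ • a), S y ∈ X ∧ u (S y) - y ∈ Λ) (hSg : pr (S (y₀ + x₀ • a)) = g x₀)
    (hS' : AnalyticAt ℂ S' (y₀ + x₀ • a)) (hSX' : ∀ᶠ y in 𝓝 (y₀ + x₀ • a), S' y ∈ X ∧ u (S' y) - y ∈ Λ) (hSg' : pr (S' (y₀ + x₀ • a)) = g x₀) :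
    ∃ t : ℝ, 0 < t ∧ ∀ ε : ℝ, 0 < ε → ∀ᶠ n in (𝒰 : Filter ι), ∀ x ∈ ball x₀ t,
      ‖(∑ i, c n i * JJ α (y i n + x • a) (pr (S (y i n + x • a))) (f i n x)) - ∑ i, c n i * JJ α (y i n + x • a) (pr (S' (y i n + x • a))) (f i n x)‖ ≤ ε := by
  obtain ⟨hSX0, hSu0⟩ := hSX.self_of_nhds
  obtain ⟨e, he, hvX, hv1⟩ := Pool.Agent.TG.exists_unit G.cone hSX0
  have hv1 : ‖e • S (y₀ + x₀ • a)‖ = 1 := mem_sphere_zero_iff_norm.1 hv1
  have hvu := smul_mem_lat G.tor hSX0 hSu0 he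
  have hvg : pr (e • S (y₀ + x₀ • a)) = g x₀ := by rw [Pool.Agent.H62.EF.pr_smul _ he, hSg]
  generalize e • S (y₀ + x₀ • a) = v at hvX hv1 hvu hvg
  obtain ⟨R, Ψ, hΨ⟩ := exists_prm G hx₀.self_of_nhds hvX hv1 hvu α
  obtain ⟨t₁, ht₁, h1⟩ := comb_prm G hy hf hgc hlim hx₀ hb1 hS hSX hSg hΨ hvg
  obtain ⟨t₂, ht₂, h2⟩ := comb_prm G hy hf hgc hlim hx₀ hb1 hS' hSX' hSg' hΨ hvg
  refine ⟨min t₁ t₂, lt_min ht₁ ht₂, fun ε hε => ?_⟩
  filter_upwards [h1 (ε / 2) (by linarith), h2 (ε / 2) (by linarith)] with n h3 h4 x hx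
  have h5 := h3 x (ball_subset_ball (min_le_left _ _) hx)
  have h6 := h4 x (ball_subset_ball (min_le_right _ _) hx)
  have h7 := norm_sub_le_norm_sub_add_norm_sub (∑ i, c n i * JJ α (y i n + x • a) (pr (S (y i n + x • a))) (f i n x)) (∑ i, c n i * Ψ (nv v (f i n x)))
    (∑ i, c n i * JJ α (y i n + x • a) (pr (S' (y i n + x • a))) (f i n x))
  rw [norm_sub_rev (∑ i, c n i * Ψ (nv v (f i n x)))] at h7
  linarith

theorem comb_lim (G : Geo X Λ u D B) (hL : LG Λ D Bad a) (hCR : ∀ p ∈ D, p ∉ Bad → CRL X Λ u D a p) (hgood : ∀ p ∈ D, p ∉ Bad → p ∉ B ∧ TransAt D p a) {ρ δ : ℝ}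
    (hlc : LC D Bad a ρ δ) {α : VForm X Λ u} {ι : Type} {𝒰 : Ultrafilter ι} {M : ℕ} {y : Fin M → ι → Vd (k + 1)} {y₀ : Vd (k + 1)} (hy : ∀ i, Tendsto (y i) 𝒰 (𝓝 y₀))
    {f : Fin M → ι → ℂ → MN N} (hf : ∀ i, ∀ᶠ n in (𝒰 : Filter ι), f i n ∈ Hc X Λ u a (y i n)) {g : ℂ → MN N} (hg : g ∈ Hc X Λ u a y₀) (hlim : ∀ i, Lm D a 𝒰 y₀ (f i) g)
    {c : ι → Fin M → ℂ} (hb1 : ∀ x : ℂ, y₀ + x • a ∉ D → Kil (𝒰 : Filter ι) a y c y₀ x) {C c' : ℝ} (hc' : 0 < c')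
    (hb2 : ∀ z₀ : ℂ, y₀ + z₀ • a ∈ Gd D (δ / 2) → ∃ (Ψ : EN N → ℂ) (v : EN N) (R t : ℝ), Prm α (y₀ + z₀ • a) v R Ψ ∧ pr v = g z₀ ∧ 0 < t ∧
      ∀ᶠ n in (𝒰 : Filter ι), ∀ x ∈ ball z₀ t, ‖∑ i, c n i * Ψ (nv v (f i n x))‖ ≤ C * Real.exp (-(c' * ‖x‖ ^ 2)))
    (h0 : y₀ ∉ D) (hcore : ∀ β ∈ Bad, ρ / 2 ≤ ‖y₀ - β‖) {Ψ : EN N → ℂ} {v : EN N} {R : ℝ} (hΨ : Prm α y₀ v R Ψ) (hv : pr v = g 0) :
    Tendsto (fun n => ∑ i, c n i * Ψ (nv v (f i n 0))) 𝒰 (𝓝 0) := by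
  classical
  have hgc : Continuous g := hc_cont G.cone hg
  have hδ := hlc.δ_pos
  have hsm : ∀ z : ℂ, ‖z • a‖ = ‖z‖ := fun z => by rw [norm_smul, hlc.norm, mul_one]
  have hcont : Continuous fun x : ℂ => y₀ + x • a := by fun_prop
  have hoff : ∀ x₀ : ℂ, y₀ + x₀ • a ∉ D → ∀ᶠ x in 𝓝 x₀, y₀ + x • a ∉ D := fun x₀ hx₀ => hcont.continuousAt.eventually (G.D_closed.isOpen_compl.mem_nhds hx₀)
  have hfn : ∀ᶠ n in (𝒰 : Filter ι), ∀ i, f i n ∈ Hc X Λ u a (y i n) := Filter.eventually_all.2 hf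
  -- local data
  have hsc : ∀ z₀ : ℂ, ∃ (r : ℝ) (S : Vd (k + 1) → EN N) (T : Fin M → ι → ℂ → ℂ), y₀ + z₀ • a ∉ Bad → 0 < r ∧
      (∀ y' ∈ ball (y₀ + z₀ • a) r, AnalyticAt ℂ S y' ∧ S y' ∈ X ∧ u (S y') - y' ∈ Λ) ∧ (∀ z ∈ ball z₀ r, pr (S (y₀ + z • a)) = g z) ∧
      (∀ z ∈ ball z₀ r, z ≠ z₀ → y₀ + z • a ∉ D) ∧ ∀ i, (∀ᶠ n in (𝒰 : Filter ι), DifferentiableOn ℂ (T i n) (ball z₀ r)) ∧
        ∀ K : Set ℂ, IsCompact K → K ⊆ ball z₀ r → (∀ z ∈ K, y₀ + z • a ∉ D) → ∀ᶠ n in (𝒰 : Filter ι), ∀ z ∈ K, T i n z = JJ α (y i n + z • a) (pr (S (y i n + z • a))) (f i n z) := by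
    intro z₀
    by_cases h : y₀ + z₀ • a ∈ Bad
    · exact ⟨0, fun _ => 0, fun _ _ _ => 0, fun h' => absurd h h'⟩
    · obtain ⟨r, S, h1, h2, h3, h4, h5⟩ := exists_scal G hL hCR hgood hg h α
      choose T hT using fun i => h5 𝒰 (y i) (f i) (hy i) (hf i) (hlim i)
      exact ⟨r, S, T, fun _ => ⟨h1, h2, h3, h4, hT⟩⟩
  choose r₀ S T hT using hsc
  -- facts at the points of the balls
  have hball : ∀ {z₀ x : ℂ} {t : ℝ}, x ∈ ball z₀ t → y₀ + x • a ∈ ball (y₀ + z₀ • a) t := by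
    intro z₀ x t hx
    rw [mem_ball, dist_eq_norm] at hx ⊢
    have h1 : y₀ + x • a - (y₀ + z₀ • a) = (x - z₀) • a := by rw [sub_smul]; abel
    rwa [h1, hsm]
  have hSan : ∀ {z₀ x : ℂ}, y₀ + z₀ • a ∉ Bad → x ∈ ball z₀ (r₀ z₀) → AnalyticAt ℂ (S z₀) (y₀ + x • a) := fun h hx => ((hT _ h).2.1 _ (hball hx)).1
  have hSX : ∀ {z₀ x : ℂ}, y₀ + z₀ • a ∉ Bad → x ∈ ball z₀ (r₀ z₀) → ∀ᶠ y' in 𝓝 (y₀ + x • a), S z₀ y' ∈ X ∧ u (S z₀ y') - y' ∈ Λ := by
    intro z₀ x h hx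
    filter_upwards [isOpen_ball.mem_nhds (hball hx)] with y' hy'
    exact ((hT _ h).2.1 _ hy').2
  -- the radii
  have hr : ∀ z₀ : ℂ, ∃ r : ℝ, y₀ + z₀ • a ∉ Bad → 0 < r ∧ r < r₀ z₀ ∧ r ≤ δ / 2 ∧ (y₀ + z₀ • a ∈ Gd D (δ / 2) → ∀ᶠ n in (𝒰 : Filter ι), ∀ x ∈ ball z₀ r,
      ‖∑ i, c n i * JJ α (y i n + x • a) (pr (S z₀ (y i n + x • a))) (f i n x)‖ ≤ (C + 1) * Real.exp (-(c' * ‖x‖ ^ 2))) := by
    intro z₀
    by_cases h : y₀ + z₀ • a ∈ Bad
    · exact ⟨0, fun h' => absurd h h'⟩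
    · have hr₀ := (hT _ h).1
      by_cases hG : y₀ + z₀ • a ∈ Gd D (δ / 2)
      · obtain ⟨Ψ', v', R', t', hΨ', hv', ht', hbd⟩ := hb2 z₀ hG
        have hz₀ : y₀ + z₀ • a ∉ D := gd_notMem (by linarith) hG
        obtain ⟨t, ht, h1⟩ := comb_prm G hy hf hgc hlim (hoff z₀ hz₀) (hb1 z₀ hz₀) (hSan h (mem_ball_self hr₀)) (hSX h (mem_ball_self hr₀))
          ((hT _ h).2.2.1 _ (mem_ball_self hr₀)) hΨ' hv'
        refine ⟨min (r₀ z₀ / 2) (min (δ / 2) (min t' (min t 1))), fun _ => ⟨by positivity, (min_le_left _ _).trans_lt (by linarith),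
          (min_le_right _ _).trans (min_le_left _ _), fun _ => ?_⟩⟩
        filter_upwards [h1 _ (Real.exp_pos (-(c' * (‖z₀‖ + 1) ^ 2))), hbd] with n h2 h3 x hx
        have hxt' : x ∈ ball z₀ t' := ball_subset_ball ((min_le_right _ _).trans ((min_le_right _ _).trans (min_le_left _ _))) hx
        have hxt : x ∈ ball z₀ t := ball_subset_ball ((min_le_right _ _).trans ((min_le_right _ _).trans ((min_le_right _ _).trans (min_le_left _ _)))) hx
        have hx1 : x ∈ ball z₀ 1 := ball_subset_ball ((min_le_right _ _).trans ((min_le_right _ _).trans ((min_le_right _ _).trans (min_le_right _ _)))) hx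
        have h4 := h2 x hxt
        have h5 := h3 x hxt'
        have h6 : ‖x‖ ≤ ‖z₀‖ + 1 := by
          rw [mem_ball, dist_eq_norm] at hx1
          have h7 := norm_le_norm_add_norm_sub' x z₀
          linarith
        have h7 : Real.exp (-(c' * (‖z₀‖ + 1) ^ 2)) ≤ Real.exp (-(c' * ‖x‖ ^ 2)) := by
          refine Real.exp_le_exp.2 ?_
          have h8 : ‖x‖ ^ 2 ≤ (‖z₀‖ + 1) ^ 2 := by gcongr
          have h9 := mul_le_mul_of_nonneg_left h8 hc'.le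
          linarith
        have h8 := norm_le_norm_add_norm_sub' (∑ i, c n i * JJ α (y i n + x • a) (pr (S z₀ (y i n + x • a))) (f i n x)) (∑ i, c n i * Ψ' (nv v' (f i n x)))
        calc _ ≤ _ := h8
          _ ≤ (C + 1) * Real.exp (-(c' * ‖x‖ ^ 2)) := by linarith
      · exact ⟨min (r₀ z₀ / 2) (δ / 2), fun _ => ⟨by positivity, (min_le_left _ _).trans_lt (by linarith), min_le_right _ _, fun h' => absurd h' hG⟩⟩
  choose r hr using hr
  obtain ⟨ω, W, hω, hW⟩ := hlc.strip y₀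
  -- the values of the functions on compact sets without hits
  have hval : ∀ {z₀ : ℂ} {K : Set ℂ}, y₀ + z₀ • a ∉ Bad → IsCompact K → K ⊆ ball z₀ (r₀ z₀) → (∀ z ∈ K, y₀ + z • a ∉ D) → ∀ᶠ n in (𝒰 : Filter ι), ∀ x ∈ K,
      ∑ i, c n i * T z₀ i n x = ∑ i, c n i * JJ α (y i n + x • a) (pr (S z₀ (y i n + x • a))) (f i n x) := by
    intro z₀ K h hK hKb hKD
    have h1 : ∀ᶠ n in (𝒰 : Filter ι), ∀ i, ∀ z ∈ K, T z₀ i n z = JJ α (y i n + z • a) (pr (S z₀ (y i n + z • a))) (f i n z) :=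
      Filter.eventually_all.2 fun i => ((hT _ h).2.2.2.2 i).2 K hK hKb hKD
    filter_upwards [h1] with n h2 x hx
    exact Finset.sum_congr rfl fun i _ => by rw [h2 i x hx]
  have h0B : y₀ + (0 : ℂ) • a ∉ Bad := by
    rw [zero_smul, add_zero]
    exact fun h => h0 (hlc.bad_sub h)
  have hLL := LL (𝒰 := 𝒰) (ω := ω) (ν := 1) (E := {z : ℂ | y₀ + z • a ∈ Bad}) (W := W) (ρ := ρ) (C := C + 1) (c := c') hω norm_one hW hlc.ρ_pos hlc.ρ_le
    (fun e he e' he' hee => by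
      have h1 := hlc.sep _ he _ he' (fun h => hee (by
        have h2 : (e - e') • a = 0 := by
          have h3 := add_left_cancel h
          rw [sub_smul, h3, sub_self]
        have h3 : ‖(e - e') • a‖ = 0 := by rw [h2, norm_zero]
        rw [hsm, norm_eq_zero] at h3
        exact sub_eq_zero.1 h3))
      have h2 : y₀ + e • a - (y₀ + e' • a) = (e - e') • a := by rw [sub_smul]; abel
      rwa [h2, hsm] at h1)
    (fun e he => by
      have h1 := hcore _ he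
      have h2 : y₀ - (y₀ + e • a) = -(e • a) := by abel
      rwa [h2, norm_neg, hsm] at h1)
    hc' (g := fun z₀ n x => ∑ i, c n i * T z₀ i n x) (r := r) (Rg := fun _ => {x : ℂ | y₀ + x • a ∈ Gd D δ})
    (fun z₀ _ h => ⟨(hr z₀ h).1, ?_⟩) (fun z₀ _ h z₁ _ h' ε hε => ?_) (fun z₀ _ h => ?_) (fun z₀ _ h => ?_)
  · -- the conclusion
    have hz : y₀ + (0 : ℂ) • a ∉ D := by rwa [zero_smul, add_zero]
    have hr0 := (hT _ h0B).1
    have hΨ' : Prm α (y₀ + (0 : ℂ) • a) v R Ψ := by rwa [zero_smul, add_zero]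
    obtain ⟨t, ht, h1⟩ := comb_prm G hy hf hgc hlim (hoff 0 hz) (hb1 0 hz) (hSan h0B (mem_ball_self hr0)) (hSX h0B (mem_ball_self hr0))
      ((hT _ h0B).2.2.1 _ (mem_ball_self hr0)) hΨ' hv
    have h2 := hval h0B (K := {0}) isCompact_singleton (Set.singleton_subset_iff.2 (mem_ball_self hr0)) (fun z hz' => by
      rw [Set.mem_singleton_iff.1 hz']
      exact hz)
    rw [Metric.tendsto_nhds] at hLL ⊢
    intro ε hε
    filter_upwards [hLL (ε / 2) (by linarith), h1 (ε / 4) (by linarith), h2] with n h3 h4 h5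
    have h6 := h5 0 rfl
    have h7 := h4 0 (mem_ball_self ht)
    rw [dist_zero_right, h6] at h3
    rw [dist_zero_right]
    have h8 := norm_le_norm_add_norm_sub' (∑ i, c n i * Ψ (nv v (f i n 0))) (∑ i, c n i * JJ α (y i n + (0 : ℂ) • a) (pr (S 0 (y i n + (0 : ℂ) • a))) (f i n 0))
    rw [norm_sub_rev] at h7
    linarith
  · -- h1
    have h1 : ∀ᶠ n in (𝒰 : Filter ι), ∀ i, DifferentiableOn ℂ (T z₀ i n) (ball z₀ (r₀ z₀)) := Filter.eventually_all.2 fun i => ((hT _ h).2.2.2.2 i).1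
    filter_upwards [h1] with n h2
    exact DifferentiableOn.fun_sum fun i _ => ((h2 i).mono (ball_subset_ball (hr z₀ h).2.1.le)).const_mul _
  · -- h2
    have h : y₀ + z₀ • a ∉ Bad := h
    have h' : y₀ + z₁ • a ∉ Bad := h'
    by_cases hz : z₀ = z₁
    · subst hz
      refine Eventually.of_forall fun n x _ => ?_
      rw [sub_self, norm_zero]
      exact hε.le
    · set K : Set ℂ := closedBall z₀ (r z₀) ∩ closedBall z₁ (r z₁) with hKdef
      have hK : IsCompact K := (isCompact_closedBall _ _).inter_right isClosed_closedBall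
      have hK0 : K ⊆ ball z₀ (r₀ z₀) := Set.inter_subset_left.trans (closedBall_subset_ball (hr z₀ h).2.1)
      have hK1 : K ⊆ ball z₁ (r₀ z₁) := Set.inter_subset_right.trans (closedBall_subset_ball (hr z₁ h').2.1)
      have hKD : ∀ x ∈ K, y₀ + x • a ∉ D := by
        intro x hx
        by_cases hxz : x = z₀
        · exact (hT _ h').2.2.2.1 x (hK1 hx) (by rw [hxz]; exact hz)
        · exact (hT _ h).2.2.2.1 x (hK0 hx) hxz
      have hcov : ∀ᶠ n in (𝒰 : Filter ι), ∀ x ∈ K, ‖(∑ i, c n i * JJ α (y i n + x • a) (pr (S z₀ (y i n + x • a))) (f i n x)) -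
          ∑ i, c n i * JJ α (y i n + x • a) (pr (S z₁ (y i n + x • a))) (f i n x)‖ ≤ ε := by
        refine hK.induction_on (p := fun s : Set ℂ => ∀ᶠ n in (𝒰 : Filter ι), ∀ x ∈ s, ‖(∑ i, c n i * JJ α (y i n + x • a) (pr (S z₀ (y i n + x • a))) (f i n x)) -
          ∑ i, c n i * JJ α (y i n + x • a) (pr (S z₁ (y i n + x • a))) (f i n x)‖ ≤ ε) ?_ ?_ ?_ ?_
        · exact Eventually.of_forall fun n x hx => absurd hx (Set.notMem_empty x)
        · intro s s' hss h1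
          filter_upwards [h1] with n h2 x hx
          exact h2 x (hss hx)
        · intro s s' h1 h2
          filter_upwards [h1, h2] with n h3 h4 x hx
          rcases hx with hx | hx
          · exact h3 x hx
          · exact h4 x hx
        · intro x hx
          obtain ⟨t, ht, h1⟩ := comb_two G (α := α) hy hf hgc hlim (hoff x (hKD x hx)) (hb1 x (hKD x hx)) (hSan h (hK0 hx)) (hSX h (hK0 hx)) ((hT _ h).2.2.1 _ (hK0 hx))
            (hSan h' (hK1 hx)) (hSX h' (hK1 hx)) ((hT _ h').2.2.1 _ (hK1 hx))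
          exact ⟨ball x t, mem_nhdsWithin_of_mem_nhds (ball_mem_nhds x ht), h1 ε hε⟩
      filter_upwards [hcov, hval h hK hK0 hKD, hval h' hK hK1 hKD] with n h1 h2 h3 x hx
      have hxK : x ∈ K := ⟨ball_subset_closedBall hx.1, ball_subset_closedBall hx.2⟩
      rw [h2 x hxK, h3 x hxK]
      exact h1 x hxK
  · -- h3
    have h : y₀ + z₀ • a ∉ Bad := h
    by_cases hG : y₀ + z₀ • a ∈ Gd D (δ / 2)
    · have hz₀ : y₀ + z₀ • a ∉ D := gd_notMem (by linarith) hG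
      have h1 := hval h (K := closedBall z₀ (r z₀)) (isCompact_closedBall _ _) (closedBall_subset_ball (hr z₀ h).2.1) (fun x hx => by
        by_cases hxz : x = z₀
        · rw [hxz]
          exact hz₀
        · exact (hT _ h).2.2.2.1 x (closedBall_subset_ball (hr z₀ h).2.1 hx) hxz)
      filter_upwards [h1, (hr z₀ h).2.2.2 hG] with n h2 h3 x hx _
      rw [h2 x (ball_subset_closedBall hx)]
      exact h3 x hx
    · refine Eventually.of_forall fun n x hx hxR => absurd ?_ hG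
      intro b hb
      have h1 : δ ≤ ‖y₀ + x • a - b‖ := hxR b hb
      have h2 : ‖(x - z₀) • a‖ ≤ δ / 2 := by
        rw [hsm]
        rw [mem_ball, dist_eq_norm] at hx
        linarith [(hr z₀ h).2.2.1]
      have h3 : y₀ + x • a - b = (y₀ + z₀ • a - b) + (x - z₀) • a := by rw [sub_smul]; abel
      have h4 := norm_add_le (y₀ + z₀ • a - b) ((x - z₀) • a)
      rw [← h3] at h4
      linarith
  · -- h4
    have hnear : ∀ {w x : ℂ}, y₀ + w • a ∈ Gd D (2 * δ) → ‖x - w‖ ≤ δ → y₀ + x • a ∈ Gd D δ := by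
      intro w x hw hx b hb
      have h1 := hw b hb
      have h3 : y₀ + w • a - b = (y₀ + x • a - b) + (w - x) • a := by rw [sub_smul]; abel
      have h4 := norm_add_le (y₀ + x • a - b) ((w - x) • a)
      rw [← h3, hsm, norm_sub_rev w x] at h4
      linarith
    by_cases he : ∃ e : ℂ, y₀ + e • a ∈ Bad ∧ ‖z₀ - e‖ < ρ / 2
    · obtain ⟨e, heB, hez⟩ := he
      have h1 := hlc.ann _ heB (z₀ - e) (h e heB).le (by linarith [hlc.ρ_pos])
      have h2 : y₀ + e • a + (z₀ - e) • a = y₀ + z₀ • a := by rw [sub_smul]; abel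
      rw [h2] at h1
      refine ⟨δ, hδ, Or.inl (Eventually.of_forall fun n x hx => ?_)⟩
      rw [mem_ball, dist_eq_norm] at hx
      exact hnear h1 hx.le
    · push Not at he
      obtain ⟨s, hs, hsρ, hcirc⟩ := hlc.circ (y₀ + z₀ • a)
      refine ⟨min δ s, lt_min hδ hs, Or.inr ⟨s, hs, by linarith [hlc.ρ_le], fun e heB => by linarith [he e heB], Eventually.of_forall fun n x hx => ?_⟩⟩
      have hx1 : |‖x - z₀‖ - s| < δ := hx.trans_le (min_le_left _ _)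
      have hx2 : |‖x - z₀‖ - s| < s := hx.trans_le (min_le_right _ _)
      have hpos : 0 < ‖x - z₀‖ := by
        rw [abs_lt] at hx2
        linarith
      set w : ℂ := ((s / ‖x - z₀‖ : ℝ) : ℂ) * (x - z₀) with hw
      have hwn : ‖w‖ = s := by
        rw [hw, norm_mul, Complex.norm_real, Real.norm_of_nonneg (by positivity)]
        field_simp
      have h1 := hcirc w hwn
      have h2 : y₀ + z₀ • a + w • a = y₀ + (z₀ + w) • a := by rw [add_smul]; abel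
      rw [h2] at h1
      refine hnear h1 ?_
      have h3 : x - (z₀ + w) = ((1 - s / ‖x - z₀‖ : ℝ) : ℂ) * (x - z₀) := by
        rw [hw]
        push_cast
        ring
      rw [h3, norm_mul, Complex.norm_real, Real.norm_eq_abs]
      have h4 : |1 - s / ‖x - z₀‖| * ‖x - z₀‖ = |‖x - z₀‖ - s| := by
        conv_lhs => rw [← abs_of_pos hpos]
        rw [← abs_mul]
        congr 1
        rw [abs_of_pos hpos]
        field_simp
      rw [h4]
      exact hx1.le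

end Pool.Agent.G3.R
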