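import Pool.Agent.H94.G4T.G3.R.Bd_1
import Pool.Agent.H94.G4T.G3.R.Comb
import Pool.Agent.H94.G4T.G3.R.Md
import Pool.Agent.H94.G4T.M92

/-!
# G3 R StepB: the limit of the sequences of the proof by contradiction
-/

set_option autoImplicit false

open Topology Filter Metric

namespace Pool.Agent.G3.R

open Pool.Agent.H36.BP (EN fs wd)
open Pool.Agent.H14.PP (IsCone CurveAt Tan)
open Pool.Agent.H62.EF (MN pr)
open Pool.Agent.AD (Vd Chart Charts IsGerm)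
open Pool.Agent.TG
open Pool.Agent.G3.C (Gc HP nv nd nv_pr)
open Pool.Agent.G3.A

variable {N k : ℕ} {X : Set (EN N)} {Λ : AddSubgroup (Vd (k + 1))} {u : EN N → Vd (k + 1)} {D B Bad : Set (Vd (k + 1))} {a b w : Vd (k + 1)} {E : Submodule ℝ (Vd (k + 1))}
  {SS : Set (Vd (k + 1) → MN N)} {J : ℕ} {α : Fin J → VForm X Λ u} {c₀ C₀ ρ δ : ℝ}

theorem co_closed (D Bad : Set (Vd (k + 1))) (δ ρ : ℝ) : IsClosed (Co D Bad δ ρ) := by
  have h : Co D Bad δ ρ = Gd D (2 * δ) ∩ ⋂ β ∈ Bad, {y | ρ / 2 ≤ ‖y - β‖} := by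
    ext y
    simp [Co]
  rw [h]
  refine (gd_closed D _).inter (isClosed_biInter fun β _ => isClosed_le continuous_const (by fun_prop))

theorem step_lim (S : DA X Λ u D B Bad a α c₀ C₀ ρ δ) (hS : Shs X Λ u D a b E SS) (𝒰 : Ultrafilter ℕ) {R : ℝ} {φ : ℕ → Vd (k + 1) → MN N} {y : ℕ → Vd (k + 1)} {v : ℕ → EN N}
    (hφ : ∀ n, φ n ∈ SS) (hyT : ∀ n, y n ∈ Tb b E) (hyC : ∀ n, y n ∈ Co D Bad δ ρ) (hyR : ∀ n, ‖y n‖ ≤ R) (hv : ∀ n, ‖v n‖ = 1) (hvφ : ∀ n, pr (v n) = φ n (y n)) :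
    ∃ (φ₀ : Vd (k + 1) → MN N) (y₀ : Vd (k + 1)) (v₀ : EN N), φ₀ ∈ SS ∧ (∀ᶠ n in (𝒰 : Filter ℕ), φ n = φ₀) ∧ Tendsto y 𝒰 (𝓝 y₀) ∧ y₀ ∈ Tb b E ∧ y₀ ∈ Co D Bad δ ρ ∧
      Tendsto v 𝒰 (𝓝 v₀) ∧ ‖v₀‖ = 1 ∧ pr v₀ = φ₀ y₀ := by
  obtain ⟨φ₀, hφ₀, hev⟩ : ∃ φ₀ ∈ SS, ∀ᶠ n in (𝒰 : Filter ℕ), φ n = φ₀ := by
    have h1 : (⋃ ψ ∈ SS, {n | φ n = ψ}) ∈ 𝒰 := by
      have h2 : (⋃ ψ ∈ SS, {n | φ n = ψ}) = Set.univ := by
        ext n
        simp [hφ n]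
      rw [h2]
      exact Filter.univ_mem
    obtain ⟨ψ, hψ, h2⟩ := (Ultrafilter.finite_biUnion_mem_iff hS.fin).1 h1
    exact ⟨ψ, hψ, h2⟩
  obtain ⟨y₀, -, hy₀⟩ := (isCompact_closedBall (0 : Vd (k + 1)) R).ultrafilter_le_nhds (𝒰.map y) (by
    rw [Ultrafilter.coe_map, le_principal_iff, mem_map]
    refine univ_mem' fun n => ?_
    simpa using hyR n)
  obtain ⟨v₀, hv₀, hv₀'⟩ := (isCompact_sphere (0 : EN N) 1).ultrafilter_le_nhds (𝒰.map v) (by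
    rw [Ultrafilter.coe_map, le_principal_iff, mem_map]
    refine univ_mem' fun n => ?_
    simpa using hv n)
  have hyt : Tendsto y 𝒰 (𝓝 y₀) := hy₀
  have hvt : Tendsto v 𝒰 (𝓝 v₀) := hv₀'
  have hv₀1 : ‖v₀‖ = 1 := by simpa using hv₀
  have hv₀0 : v₀ ≠ 0 := by
    rintro rfl
    rw [norm_zero] at hv₀1
    exact zero_ne_one hv₀1
  have hy₀T : y₀ ∈ Tb b E := (tb_closed b E).mem_of_tendsto hyt (Eventually.of_forall hyT)
  have hy₀C : y₀ ∈ Co D Bad δ ρ := (co_closed D Bad δ ρ).mem_of_tendsto hyt (Eventually.of_forall hyC)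
  refine ⟨φ₀, y₀, v₀, hφ₀, hev, hyt, hy₀T, hy₀C, hvt, hv₀1, ?_⟩
  have hy₀D : y₀ ∉ D := gd_notMem (by linarith [S.lc.δ_pos]) hy₀C.1
  have h1 : Tendsto (fun n => pr (v n)) 𝒰 (𝓝 (pr v₀)) := (Pool.Agent.H62.EF.continuousAt_pr hv₀0).tendsto.comp hvt
  have h2 : Tendsto (fun n => φ₀ (y n)) 𝒰 (𝓝 (φ₀ y₀)) :=
    ((hS.sht φ₀ hφ₀).cont y₀ hy₀T hy₀D).tendsto.comp (tendsto_nhdsWithin_iff.2 ⟨hyt, Eventually.of_forall hyT⟩)
  refine tendsto_nhds_unique h1 (h2.congr' ?_)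
  filter_upwards [hev] with n hn
  rw [hvφ n, hn]

theorem step_comb (S : DA X Λ u D B Bad a α c₀ C₀ ρ δ) (hS : Shs X Λ u D a b E SS) (hw : w ∈ E) {m : ℕ} (hm : ∀ j ≤ m, DDb D (Tb b E) SS w j) {𝒰 : Ultrafilter ℕ}
    (h𝒰 : (𝒰 : Filter ℕ) ≤ atTop) {φ : Vd (k + 1) → MN N} (hφ : φ ∈ SS) {σ : ℕ → ℕ → ℝ} {Nb : ℕ → ℝ} {y : ℕ → Vd (k + 1)} (hσ : ∀ n, Nod (m + 1) (σ n) (1 / ((n : ℝ) + 1)))
    (hNb : ∀ n : ℕ, (n : ℝ) ≤ Nb n) (hNb1 : ∀ n, 1 ≤ Nb n)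
    (hcore : ∀ n, ∀ ψ ∈ SS, ∀ y' ∈ Tb b E, y' ∈ Co D Bad δ ρ → ∀ v' : EN N, ‖v'‖ = 1 → pr v' = ψ y' → sz w (m + 1) (σ n) ψ y' v' ≤ Nb n) (hyT : ∀ n, y n ∈ Tb b E)
    {y₀ : Vd (k + 1)} (hy : Tendsto y 𝒰 (𝓝 y₀)) (hy₀T : y₀ ∈ Tb b E) (hy₀C : y₀ ∈ Co D Bad δ ρ) {j : Fin J} {v₀ : EN N} (hv₀φ : pr v₀ = φ y₀) {R' : ℝ} {Ψ : EN N → ℂ}
    (hΨ : Prm (α j) y₀ v₀ R' Ψ) :
    Tendsto (fun n => (Nb n : ℂ)⁻¹ * dd (m + 1) (σ n) fun s : ℝ => Ψ (nv v₀ (φ (y n + (s : ℂ) • w)))) 𝒰 (𝓝 0) := by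
  have hδ := S.lc.δ_pos
  have hy₀D : y₀ ∉ D := gd_notMem (by linarith) hy₀C.1
  have hrn : Tendsto (fun n : ℕ => 1 / ((n : ℝ) + 1)) 𝒰 (𝓝 0) := tendsto_one_div_add_atTop_nhds_zero_nat.mono_left h𝒰
  have hσ0 : ∀ i, i ≤ m + 1 → Tendsto (fun n => σ n i) 𝒰 (𝓝 0) := fun i hi => squeeze_zero_norm (fun n => (hσ n).le i hi) hrn
  have hNbt : Tendsto Nb 𝒰 atTop := tendsto_atTop_mono hNb (tendsto_natCast_atTop_atTop.mono_left h𝒰)
  -- the curves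
  set yy : Fin (m + 2) → ℕ → Vd (k + 1) := fun i n => y n + (σ n i : ℂ) • w with hyy
  have hyyT : ∀ i n, yy i n ∈ Tb b E := fun i n => tb_add (hyT n) (smul_mem_E hw _)
  have hyyt : ∀ i, Tendsto (yy i) 𝒰 (𝓝 y₀) := by
    intro i
    have h1 : Tendsto (fun n => ((σ n i : ℝ) : ℂ) • w) 𝒰 (𝓝 (((0 : ℝ) : ℂ) • w)) :=
      ((Complex.continuous_ofReal.tendsto 0).comp (hσ0 i (by have := i.isLt; omega))).smul_const w
    rw [Complex.ofReal_zero, zero_smul] at h1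
    have h2 := hy.add h1
    rwa [add_zero] at h2
  -- the sum is the divided difference
  have hsum : ∀ (n : ℕ) (F : Vd (k + 1) → ℂ) (e : Vd (k + 1)), ∑ i : Fin (m + 2), ((dw (m + 1) (σ n) i : ℝ) : ℂ) / (Nb n : ℂ) * F (yy i n + e) =
      (Nb n : ℂ)⁻¹ * dd (m + 1) (σ n) fun s : ℝ => F (y n + (s : ℂ) • w + e) := by
    intro n F e
    unfold dd
    rw [Finset.mul_sum, Finset.sum_range]
    refine Finset.sum_congr rfl fun i _ => ?_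
    simp only [hyy, smul_eq_mul]
    ring
  obtain ⟨rs, Cs, cs, hrs, hCs, hcs, hsb⟩ := scal_bd S hS hw hm (‖y₀‖) j
  obtain ⟨rg, Kg, hrg, hKg, hcg⟩ := core_to_gd S hS hw hm (show 0 < δ / 4 by linarith)
  have hev1 : ∀ r : ℝ, 0 < r → ∀ᶠ n : ℕ in (𝒰 : Filter ℕ), 1 / ((n : ℝ) + 1) ≤ r := fun r hr => (hrn.eventually_lt_const hr).mono fun n hn => hn.le
  have key := comb_lim S.geo S.lg S.cr S.good S.lc (α := α j) (𝒰 := 𝒰) (y := yy) (y₀ := y₀) hyyt (f := fun i n z => φ (yy i n + z • a)) (g := fun z => φ (y₀ + z • a))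
    (c := fun n i => ((dw (m + 1) (σ n) i : ℝ) : ℂ) / (Nb n : ℂ)) (C := Cs * max Kg 1) (c' := cs)
    (fun i => Eventually.of_forall fun n => (hS.sht φ hφ).line _ (hyyT i n)) ((hS.sht φ hφ).line _ hy₀T)
    (fun i => hS.lm hφ (hyyT i) hy₀T (hyyt i)) ?_ hcs ?_ hy₀D hy₀C.2 hΨ (by simpa using hv₀φ)
  · refine key.congr fun n => ?_
    have h1 := hsum n (fun y => Ψ (nv v₀ (φ y))) 0
    simp only [add_zero] at h1
    simp only [zero_smul, add_zero]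
    exact h1
  · -- `hb1`
    intro x _ h hh
    have hyx : Tendsto (fun n => y n + x • a) 𝒰 (𝓝 (y₀ + x • a)) := hy.add_const _
    obtain ⟨t, ht, h1⟩ := kil_dd (m := m + 1) w hσ hrn hNbt hyx hh
    refine ⟨t, ht, fun ε hε => ?_⟩
    filter_upwards [h1 ε hε] with n hn x' hx'
    have h2 := hn ((x' - x) • a) (by rw [norm_smul, S.lg.norm, mul_one, ← dist_eq_norm]; exact hx')
    rw [hsum n h (x' • a)]
    refine le_of_eq_of_le ?_ h2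
    congr 2
    refine dd_congr fun i _ => ?_
    congr 1
    rw [sub_smul]
    abel
  · -- `hb2`
    intro z₀ hz₀
    obtain ⟨Ψ', v', R'', t, hP, hv', ht, hb⟩ := hsb y₀ hy₀T le_rfl φ hφ z₀ hz₀
    have ht' : 0 < min t (δ / 8) := lt_min ht (by linarith)
    refine ⟨Ψ', v', R'', min t (δ / 8), hP, hv', ht', ?_⟩
    have h1 : ∀ᶠ n in (𝒰 : Filter ℕ), ‖y n - y₀‖ < min t (δ / 8) := by
      have := hy.eventually (ball_mem_nhds y₀ ht')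
      filter_upwards [this] with n hn
      rwa [dist_eq_norm] at hn
    filter_upwards [h1, hev1 rs hrs, hev1 rg hrg] with n hn hn2 hn3 x hx
    rw [hsum n (fun y => Ψ' (nv v' (φ y))) (x • a)]
    have hxt : x ∈ ball z₀ t := ball_subset_ball (min_le_left _ _) hx
    have hxG : y n + x • a ∈ Gd D (δ / 4) := by
      have h2 : ‖(y n + x • a) - (y₀ + z₀ • a)‖ ≤ δ / 4 := by
        have e : (y n + x • a) - (y₀ + z₀ • a) = (y n - y₀) + (x - z₀) • a := by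
          rw [sub_smul]
          abel
        rw [e]
        refine (norm_add_le _ _).trans ?_
        rw [norm_smul, S.lg.norm, mul_one, ← dist_eq_norm x z₀]
        have h3 := (mem_ball.1 hx).trans_le (min_le_right t (δ / 8))
        have h4 := hn.trans_le (min_le_right t (δ / 8))
        linarith
      have h3 := gd_near hz₀ h2
      have e : δ / 2 - δ / 4 = δ / 4 := by ring
      rwa [e] at h3
    have hxT : y n + x • a ∈ Tb b E := tb_add (hyT n) (hS.mem x)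
    have hNK : 1 ≤ max Kg 1 * Nb n := by
      have h5 := le_max_right Kg 1
      have h6 := hNb1 n
      nlinarith
    have h7 := hb (σ n) (max Kg 1 * Nb n) ((hσ n).mono le_rfl hn2) hNK (y n) (hyT n) (hn.trans_le (min_le_left _ _)) x hxt fun v'' hv'' hvφ'' => by
      have h8 := hcg (σ n) (Nb n) ((hσ n).mono le_rfl hn3) (hNb1 n) (hcore n) φ hφ (y n + x • a) hxT hxG v'' hv'' hvφ''
      refine h8.trans (mul_le_mul_of_nonneg_right (le_max_left _ _) ?_)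
      linarith [hNb1 n]
    have hNpos : 0 < Nb n := lt_of_lt_of_le one_pos (hNb1 n)
    rw [norm_mul, norm_inv, Complex.norm_real, Real.norm_of_nonneg hNpos.le]
    have h9 : (dd (m + 1) (σ n) fun s : ℝ => Ψ' (nv v' (φ (y n + (s : ℂ) • w + x • a)))) = dd (m + 1) (σ n) fun s : ℝ => Ψ' (nv v' (φ (y n + x • a + (s : ℂ) • w))) :=
      dd_congr fun i _ => by rw [add_right_comm]
    rw [h9, inv_mul_le_iff₀ hNpos]
    refine h7.trans (le_of_eq ?_)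
    ring

end Pool.Agent.G3.R
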