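import Pool.Agent.H94.G4T.M07
import Pool.Agent.H94.G4T.M18

/-!
# G3 R Sec: straight charts and local sections at the points of honest curves

`isStr_curve`: `F` a holomorphic curve in `X` over the line `y₀ + ℂ a` near `z₀`, `p = y₀ + z₀ a`: `u` is a submersion at `F z₀`.  If `p ∉ D` this is `G.sub`.  If `p ∈ D`: `p ∉ B`, `TransAt D p a`;
`G.nc` gives `κ` and `IsNC`: `u (σ q) = κ (q 0 ^ m * q 1 ^ n, q'')` near `0`, `σ 0 = F z₀`.  Let `q z = τ (F z)`: `κ (nm m n (q z)) = p + (z - z₀) a` near `z₀` (the difference is in `Λ` and continuous), the coordinate `0` of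
`κ⁻¹ (p + (z - z₀) a)` has a simple zero at `z₀` (`TransAt`), so `q 0 ^ m * q 1 ^ n` has a simple zero; `q 0 = q 1 = 0` at `z₀`, so `m = 1, n = 0` or `m = 0, n = 1`.  Then `u ∘ σ = κ ∘ (linear projection)`, with the local
inverse of `κ` one gets `IsStr` (`IsGerm` with other coordinates).
`exists_sec`: a straight chart `χ` at `F z₀` (`exists_str_chart`), `x z = χ.q (F z) 0`, `ℓ y = z₀ + (y - p) i / a i` for a coordinate `i` with `a i ≠ 0`; `S y = χ.σ (x (ℓ y), (y - p) / ρ)`.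
-/

set_option autoImplicit false

open Topology Filter Metric

namespace Pool.Agent.G3.R

open Pool.Agent.H36.BP (EN fs wd)
open Pool.Agent.H14.PP (IsCone CurveAt Tan)
open Pool.Agent.H62.EF (MN pr)
open Pool.Agent.AD (Vd Chart Charts IsGerm)
open Pool.Agent.TG

variable {N k d : ℕ} {X : Set (EN N)} {Λ : AddSubgroup (Vd (k + 1))} {u : EN N → Vd (k + 1)} {D B Bad : Set (Vd (k + 1))} {a : Vd (k + 1)}

/-- change of the coordinates of a germ -/
private theorem sec_germ {σ : Vd d → EN N} {τ : EN N → Vd d} (h : IsGerm X σ τ) {P R : Vd d → Vd d} (hP : AnalyticAt ℂ P 0) (hP0 : P 0 = 0)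
    (hR : AnalyticAt ℂ R 0) (hRP : ∀ᶠ p in 𝓝 (0 : Vd d), R (P p) = p) (hPR : ∀ᶠ q in 𝓝 (0 : Vd d), P (R q) = q) :
    IsGerm X (fun p => σ (P p)) (fun x => R (τ x)) := by
  have hτ0 : τ (σ 0) = 0 := h.left.self_of_nhds
  have hPt : Tendsto P (𝓝 0) (𝓝 0) := by
    have := hP.continuousAt.tendsto
    rwa [hP0] at this
  have hτt : Tendsto τ (𝓝 (σ 0)) (𝓝 0) := by
    have := h.τ_an.continuousAt.tendsto
    rwa [hτ0] at this
  refine ⟨?_, ?_, ?_, ?_, ?_, ?_⟩
  · have h1 : AnalyticAt ℂ σ (P 0) := by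
      rw [hP0]
      exact h.σ_an
    exact h1.fun_comp hP
  · exact hPt.eventually h.σ_mem
  · show AnalyticAt ℂ (fun x => R (τ x)) (σ (P 0))
    rw [hP0]
    have h1 : AnalyticAt ℂ R (τ (σ 0)) := by
      rw [hτ0]
      exact hR
    exact h1.fun_comp h.τ_an
  · filter_upwards [hPt.eventually h.left, hRP] with p h1 h2
    show R (τ (σ (P p))) = p
    rw [h1, h2]
  · show ∀ᶠ y in 𝓝 (σ (P 0)), y ∈ X → ∃ c : ℂ, c ≠ 0 ∧ y = c • σ (P (R (τ y)))
    rw [hP0]
    filter_upwards [h.right, hτt.eventually hPR] with y h1 h2 hy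
    rw [h2]
    exact h1 hy
  · show ∀ᶠ z in 𝓝 (σ (P 0), (1 : ℂ)), R (τ (z.2 • z.1)) = R (τ z.1)
    rw [hP0]
    filter_upwards [h.inv] with z hz
    rw [hz]

private theorem sec_nm0 {m n : ℕ} (h : 0 < m + n) : nm m n (0 : Vd (k + 2)) = 0 := by
  funext i
  refine Fin.cases ?_ (fun i => rfl) i
  show (0 : ℂ) ^ m * (0 : ℂ) ^ n = 0
  rw [← pow_add, zero_pow h.ne']

private theorem sec_nm_an (m n : ℕ) : AnalyticAt ℂ (nm (k := k) m n) 0 := by
  refine analyticAt_pi_iff.2 fun i => ?_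
  refine Fin.cases ?_ (fun i => ?_) i
  · exact (((ContinuousLinearMap.proj (R := ℂ) (φ := fun _ : Fin (k + 2) => ℂ) 0).analyticAt _).pow m).mul
      (((ContinuousLinearMap.proj (R := ℂ) (φ := fun _ : Fin (k + 2) => ℂ) 1).analyticAt _).pow n)
  · exact (ContinuousLinearMap.proj (R := ℂ) (φ := fun _ : Fin (k + 2) => ℂ) i.succ.succ).analyticAt _

/-- the splitting of the coordinates for `m + n = 1` -/
private theorem sec_split {m n : ℕ} (h : m + n = 1) :
    ∃ (Q : ℂ → Vd (k + 1) → Vd (k + 2)) (s : Fin (k + 2)), (∀ t w, nm m n (Q t w) = w) ∧ (∀ t w, Q t w s = t) ∧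
      (∀ q, Q (q s) (nm m n q) = q) ∧ ∀ i, (∀ t w, Q t w i = t) ∨ ∃ j, ∀ t w, Q t w i = w j := by
  have h1 : (m = 1 ∧ n = 0) ∨ (m = 0 ∧ n = 1) := by omega
  rcases h1 with ⟨rfl, rfl⟩ | ⟨rfl, rfl⟩
  · refine ⟨fun t w => Fin.cons (α := fun _ => ℂ) (w 0) (Fin.cons (α := fun _ => ℂ) t fun i : Fin k => w i.succ), 1, ?_, fun t w => rfl, ?_, ?_⟩
    · intro t w
      funext i
      refine Fin.cases ?_ (fun i => rfl) i
      show w 0 ^ 1 * t ^ 0 = w 0
      rw [pow_one, pow_zero, mul_one]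
    · intro q
      funext i
      refine Fin.cases ?_ (fun i => ?_) i
      · show q 0 ^ 1 * q 1 ^ 0 = q 0
        rw [pow_one, pow_zero, mul_one]
      · refine Fin.cases rfl (fun i => rfl) i
    · intro i
      refine Fin.cases ?_ (fun i => ?_) i
      · exact Or.inr ⟨0, fun t w => rfl⟩
      · refine Fin.cases ?_ (fun i => ?_) i
        · exact Or.inl fun t w => rfl
        · exact Or.inr ⟨i.succ, fun t w => rfl⟩
  · refine ⟨fun t w => Fin.cons (α := fun _ => ℂ) t w, 0, ?_, fun t w => rfl, ?_, ?_⟩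
    · intro t w
      funext i
      refine Fin.cases ?_ (fun i => rfl) i
      show t ^ 0 * w 0 ^ 1 = w 0
      rw [pow_one, pow_zero, one_mul]
    · intro q
      funext i
      refine Fin.cases rfl (fun i => ?_) i
      refine Fin.cases ?_ (fun i => rfl) i
      show q 0 ^ 0 * q 1 ^ 1 = q 1
      rw [pow_one, pow_zero, one_mul]
    · intro i
      refine Fin.cases ?_ (fun i => ?_) i
      · exact Or.inl fun t w => rfl
      · exact Or.inr ⟨i, fun t w => rfl⟩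

/-- the case `m + n = 1` -/
private theorem sec_one {κ : Vd (k + 1) → Vd (k + 1)} {v : Vd (k + 1)} (hκ : IsCoord D κ v) {x : EN N} {σ : Vd (k + 2) → EN N} {τ : EN N → Vd (k + 2)}
    {m n : ℕ} (hG : IsGerm X σ τ) (hσ0 : σ 0 = x) (hmn : m + n = 1) (hnm : ∀ᶠ p in 𝓝 (0 : Vd (k + 2)), u (σ p) - κ (nm m n p) ∈ Λ) :
    IsStr X Λ u x v := by
  obtain ⟨Q, s, hQ1, hQ2, hQ3, hQ4⟩ := sec_split (k := k) hmn
  obtain ⟨ψ, hψ, hψκ, hκψ, hψ0⟩ := Pool.Agent.H62.BU.local_inverse hκ.an fun w hw => hκ.inj (by rw [hw, map_zero])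
  rw [hκ.zero] at hψ hκψ hψ0
  have hm0 : nm m n (0 : Vd (k + 2)) = 0 := sec_nm0 (by omega)
  have htl : AnalyticAt ℂ (fun p : Vd (k + 2) => v + tl p) 0 := by
    refine analyticAt_const.add (analyticAt_pi_iff.2 fun i => ?_)
    exact (ContinuousLinearMap.proj (R := ℂ) (φ := fun _ : Fin (k + 2) => ℂ) i.succ).analyticAt _
  have htl0 : v + tl (0 : Vd (k + 2)) = v := by
    have h1 : tl (0 : Vd (k + 2)) = 0 := rfl
    rw [h1, add_zero]
  have hψt : AnalyticAt ℂ (fun p : Vd (k + 2) => ψ (v + tl p)) 0 := by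
    have h1 : AnalyticAt ℂ ψ (v + tl (0 : Vd (k + 2))) := by
      rw [htl0]
      exact hψ
    exact AnalyticAt.fun_comp (f := fun p : Vd (k + 2) => v + tl p) h1 htl
  have htt : Tendsto (fun p : Vd (k + 2) => v + tl p) (𝓝 0) (𝓝 v) := by
    have h1 := htl.continuousAt.tendsto
    rwa [htl0] at h1
  set P : Vd (k + 2) → Vd (k + 2) := fun p => Q (p 0) (ψ (v + tl p)) with hPd
  set R : Vd (k + 2) → Vd (k + 2) := fun q => Fin.cons (α := fun _ => ℂ) (q s) (κ (nm m n q) - v) with hRd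
  have hP : AnalyticAt ℂ P 0 := by
    refine analyticAt_pi_iff.2 fun i => ?_
    rcases hQ4 i with h1 | ⟨j, h1⟩
    · have h2 : (fun p => P p i) = fun p : Vd (k + 2) => p 0 := funext fun p => h1 _ _
      rw [h2]
      exact (ContinuousLinearMap.proj (R := ℂ) (φ := fun _ : Fin (k + 2) => ℂ) 0).analyticAt _
    · have h2 : (fun p => P p i) = fun p : Vd (k + 2) => ψ (v + tl p) j := funext fun p => h1 _ _
      rw [h2]
      exact analyticAt_pi_iff.1 hψt j
  have hP0 : P 0 = 0 := by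
    have h1 := hQ3 0
    rw [hm0] at h1
    show Q 0 (ψ (v + tl 0)) = 0
    rw [htl0, hψ0]
    exact h1
  have hκn : AnalyticAt ℂ (fun q : Vd (k + 2) => κ (nm m n q)) 0 := by
    have h1 : AnalyticAt ℂ κ (nm m n (0 : Vd (k + 2))) := by
      rw [hm0]
      exact hκ.an
    exact h1.fun_comp (sec_nm_an m n)
  have hR : AnalyticAt ℂ R 0 := by
    refine analyticAt_pi_iff.2 fun i => ?_
    refine Fin.cases ?_ (fun i => ?_) i
    · exact (ContinuousLinearMap.proj (R := ℂ) (φ := fun _ : Fin (k + 2) => ℂ) s).analyticAt _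
    · exact analyticAt_pi_iff.1 (hκn.sub analyticAt_const) i
  have hnt : Tendsto (nm (k := k) m n) (𝓝 0) (𝓝 0) := by
    have h1 := (sec_nm_an (k := k) m n).continuousAt.tendsto
    rwa [hm0] at h1
  have hRP : ∀ᶠ p in 𝓝 (0 : Vd (k + 2)), R (P p) = p := by
    filter_upwards [htt.eventually hκψ] with p hp
    funext i
    refine Fin.cases ?_ (fun i => ?_) i
    · exact hQ2 _ _
    · show (κ (nm m n (Q (p 0) (ψ (v + tl p)))) - v) i = p i.succ
      rw [hQ1, hp, add_sub_cancel_left]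
      rfl
  have hPR : ∀ᶠ q in 𝓝 (0 : Vd (k + 2)), P (R q) = q := by
    filter_upwards [hnt.eventually hψκ] with q hq
    have h1 : tl (R q) = κ (nm m n q) - v := rfl
    show Q (q s) (ψ (v + tl (R q))) = q
    rw [h1, add_sub_cancel, hq, hQ3]
  have hPt : Tendsto P (𝓝 0) (𝓝 0) := by
    have h1 := hP.continuousAt.tendsto
    rwa [hP0] at h1
  refine ⟨fun p => σ (P p), fun x => R (τ x), sec_germ hG hP hP0 hR hRP hPR, ?_, ?_⟩
  · show σ (P 0) = x
    rw [hP0, hσ0]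
  · filter_upwards [hPt.eventually hnm, htt.eventually hκψ] with p h1 h2
    have h3 : nm m n (P p) = ψ (v + tl p) := hQ1 _ _
    rw [h3, h2] at h1
    exact h1

/-- the derivative of `x ^ m * y ^ n` along a curve -/
private theorem sec_der {f g : ℂ → ℂ} {z f' g' : ℂ} (hf : HasDerivAt f f' z) (hg : HasDerivAt g g' z) (hf0 : f z = 0) (hg0 : g z = 0) {m n : ℕ}
    (h : 2 ≤ m + n) : HasDerivAt (fun w => f w ^ m * g w ^ n) 0 z := by
  have h1 := (hf.fun_pow m).fun_mul (hg.fun_pow n)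
  have h2 : (m : ℂ) * f z ^ (m - 1) * f' * g z ^ n + f z ^ m * ((n : ℂ) * g z ^ (n - 1) * g') = 0 := by
    rw [hf0, hg0]
    rcases Nat.lt_or_ge m 2 with hm | hm
    · interval_cases m
      · have h3 : n - 1 ≠ 0 := by omega
        rw [zero_pow h3]
        simp
      · have h3 : n ≠ 0 := by omega
        rw [zero_pow h3]
        simp
    · have h3 : m - 1 ≠ 0 := by omega
      have h4 : m ≠ 0 := by omega
      rw [zero_pow h3, zero_pow h4]
      simp
  rwa [h2] at h1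

/-- `u` is a submersion at the points of a curve over the points which are not bad -/
private theorem sec_nc (G : Geo X Λ u D B) {v y : Vd (k + 1)} (ht : TransAt D v a) {κ : Vd (k + 1) → Vd (k + 1)} (hκ : IsCoord D κ v) {F : ℂ → EN N}
    {z : ℂ} (hnc : IsNC X Λ u κ (F z)) (hF : AnalyticAt ℂ F z) (hv : y + z • a = v) (hFX : ∀ᶠ w in 𝓝 z, F w ∈ X ∧ u (F w) - (y + w • a) ∈ Λ) :
    IsStr X Λ u (F z) v := by
  obtain ⟨σ, τ, m, n, hG, hσ0, hmn, hnm⟩ := hnc
  rcases Nat.lt_or_ge (m + n) 2 with hlt | hge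
  · exact sec_one hκ hG hσ0 (by omega) hnm
  exfalso
  have hτ0 : τ (σ 0) = 0 := hG.left.self_of_nhds
  have hm0 : nm m n (0 : Vd (k + 2)) = 0 := sec_nm0 hmn
  -- the coordinates of the curve
  set q : ℂ → Vd (k + 2) := fun w => τ (F w) with hqd
  have hq : AnalyticAt ℂ q z := by
    have h1 : AnalyticAt ℂ τ (F z) := by
      rw [← hσ0]
      exact hG.τ_an
    exact h1.fun_comp hF
  have hq0 : q z = 0 := by
    show τ (F z) = 0
    rw [← hσ0, hτ0]
  have hFt : Tendsto F (𝓝 z) (𝓝 (σ 0)) := by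
    rw [hσ0]
    exact hF.continuousAt.tendsto
  have hqt : Tendsto q (𝓝 z) (𝓝 0) := by
    have h1 := hq.continuousAt.tendsto
    rwa [hq0] at h1
  have hmem : ∀ᶠ w in 𝓝 z, κ (nm m n (q w)) - (y + w • a) ∈ Λ := by
    filter_upwards [hFt.eventually hG.right, hqt.eventually hG.σ_mem, hqt.eventually hnm, hFX] with w h1 h2 h3 h0
    obtain ⟨c, hc, h4⟩ := h1 h0.1
    have h5 := G.tor.smul _ h2 c hc
    have h6 : c • σ (q w) = F w := h4.symm
    rw [h6] at h5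
    have h7 := Λ.sub_mem (Λ.sub_mem h0.2 h5) h3
    have h8 : u (F w) - (y + w • a) - (u (F w) - u (σ (q w))) - (u (σ (q w)) - κ (nm m n (q w))) = κ (nm m n (q w)) - (y + w • a) := by abel
    rwa [h8] at h7
  obtain ⟨δ, hδ, hdisc⟩ := G.lat.disc
  have hκn : AnalyticAt ℂ (fun w => κ (nm m n (q w))) z := by
    have h1 : AnalyticAt ℂ (nm (k := k) m n) (q z) := by
      rw [hq0]
      exact sec_nm_an m n
    have h2 : AnalyticAt ℂ κ (nm m n (q z)) := by
      rw [hq0, hm0]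
      exact hκ.an
    exact AnalyticAt.fun_comp (f := fun w => nm m n (q w)) h2 (h1.fun_comp hq)
  have hlin : HasDerivAt (fun w : ℂ => y + w • a) a z := by
    have h1 := ((hasDerivAt_id z).smul_const a).const_add y
    simpa using h1
  have heq : ∀ᶠ w in 𝓝 z, κ (nm m n (q w)) = y + w • a := by
    have h1 : ContinuousAt (fun w => κ (nm m n (q w)) - (y + w • a)) z := hκn.continuousAt.sub hlin.continuousAt
    have h2 : Tendsto (fun w => κ (nm m n (q w)) - (y + w • a)) (𝓝 z) (𝓝 0) := by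
      have h3 := h1.tendsto
      rwa [hq0, hm0, hκ.zero, hv, sub_self] at h3
    filter_upwards [hmem, h2.eventually (ball_mem_nhds 0 hδ)] with w h3 h4
    exact sub_eq_zero.1 (hdisc _ h3 (mem_ball_zero_iff.1 h4))
  -- the derivative
  have hnq : AnalyticAt ℂ (fun w => nm m n (q w)) z := by
    have h1 : AnalyticAt ℂ (nm (k := k) m n) (q z) := by
      rw [hq0]
      exact sec_nm_an m n
    exact h1.fun_comp hq
  have hd1 : HasDerivAt (fun w => κ (nm m n (q w))) (fderiv ℂ κ 0 (deriv (fun w => nm m n (q w)) z)) z := by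
    have h1 : HasFDerivAt κ (fderiv ℂ κ 0) (nm m n (q z)) := by
      rw [hq0, hm0]
      exact hκ.an.differentiableAt.hasFDerivAt
    exact h1.comp_hasDerivAt z hnq.differentiableAt.hasDerivAt
  have hd2 : fderiv ℂ κ 0 (deriv (fun w => nm m n (q w)) z) = a := by
    refine hd1.unique (hlin.congr_of_eventuallyEq ?_)
    filter_upwards [heq] with w hw
    exact hw
  refine ht.2 κ hκ _ ?_ hd2
  have h1 : HasDerivAt (fun w => nm m n (q w) 0) (deriv (fun w => nm m n (q w)) z 0) z := hasDerivAt_pi.1 hnq.differentiableAt.hasDerivAt 0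
  have hqd : HasDerivAt q (deriv q z) z := hq.differentiableAt.hasDerivAt
  have h2 : HasDerivAt (fun w => q w 0 ^ m * q w 1 ^ n) 0 z :=
    sec_der (hasDerivAt_pi.1 hqd 0) (hasDerivAt_pi.1 hqd 1) (by rw [hq0]; rfl) (by rw [hq0]; rfl) hge
  exact h1.unique h2

theorem isStr_curve (G : Geo X Λ u D B) {y₀ : Vd (k + 1)} {z₀ : ℂ} (h : y₀ + z₀ • a ∈ D → y₀ + z₀ • a ∉ B ∧ TransAt D (y₀ + z₀ • a) a) {F : ℂ → EN N} (hF : AnalyticAt ℂ F z₀)
    (hFX : ∀ᶠ z in 𝓝 z₀, F z ∈ X ∧ u (F z) - (y₀ + z • a) ∈ Λ) : IsStr X Λ u (F z₀) (y₀ + z₀ • a) := by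
  have h0 := hFX.self_of_nhds
  by_cases hD : y₀ + z₀ • a ∈ D
  · obtain ⟨hB, ht⟩ := h hD
    obtain ⟨κ, hκ, hnc⟩ := G.nc _ hD hB
    exact sec_nc G ht hκ (hnc _ h0.1 h0.2) hF rfl hFX
  · exact G.sub _ hD _ h0.1 h0.2

theorem exists_sec (G : Geo X Λ u D B) {y₀ : Vd (k + 1)} (ha : a ≠ 0) {z₀ : ℂ} (h : y₀ + z₀ • a ∈ D → y₀ + z₀ • a ∉ B ∧ TransAt D (y₀ + z₀ • a) a) {F : ℂ → EN N} (hF : AnalyticAt ℂ F z₀)
    (hFX : ∀ᶠ z in 𝓝 z₀, F z ∈ X ∧ u (F z) - (y₀ + z • a) ∈ Λ) : ∃ (r : ℝ) (S : Vd (k + 1) → EN N), 0 < r ∧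
      (∀ y ∈ ball (y₀ + z₀ • a) r, AnalyticAt ℂ S y ∧ S y ∈ X ∧ u (S y) - y ∈ Λ) ∧ ∀ z ∈ ball z₀ r, pr (S (y₀ + z • a)) = pr (F z) := by
  have hstr := isStr_curve G h hF hFX
  obtain ⟨χ, ρ, hU, hq0, hs, -⟩ := exists_str_chart G.cone G.tor hstr one_pos
  set v : Vd (k + 1) := y₀ + z₀ • a with hv
  have hρ0 : (ρ : ℂ) ≠ 0 := by
    exact_mod_cast hs.pos.ne'
  obtain ⟨i, hi⟩ : ∃ i, a i ≠ 0 := by
    by_contra hcon
    push Not at hcon
    exact ha (funext hcon)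
  -- the coordinates of the curve
  have hqa : AnalyticAt ℂ (fun z => χ.q (F z)) z₀ := (χ.q_an _ hU).fun_comp hF
  have hFU : ∀ᶠ z in 𝓝 z₀, F z ∈ χ.U := hF.continuousAt.tendsto.eventually (χ.isOpen_U.mem_nhds hU)
  obtain ⟨δ, hδ, hdisc⟩ := G.lat.disc
  have hmsa : AnalyticAt ℂ (fun z => ms v ρ (χ.q (F z)) - (y₀ + z • a)) z₀ := by
    have h1 : AnalyticAt ℂ (fun z => tl (χ.q (F z))) z₀ := analyticAt_pi_iff.2 fun j => analyticAt_pi_iff.1 hqa j.succ
    have h2 : AnalyticAt ℂ (fun z : ℂ => (ρ : ℂ) • tl (χ.q (F z))) z₀ := h1.fun_const_smul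
    have h3 : AnalyticAt ℂ (fun z : ℂ => y₀ + z • a) z₀ := by fun_prop
    have h4 : AnalyticAt ℂ (fun _ : ℂ => v) z₀ := analyticAt_const
    exact (h4.fun_add h2).fun_sub h3
  have htl0 : tl (0 : Vd (k + 2)) = 0 := rfl
  have hms0 : ms v ρ (χ.q (F z₀)) - (y₀ + z₀ • a) = 0 := by
    rw [hq0, ms, htl0, smul_zero, add_zero, ← hv, sub_self]
  have hlift : ∀ᶠ z in 𝓝 z₀, (∃ c : ℂ, c ≠ 0 ∧ F z = c • χ.σ (χ.q (F z))) ∧ ms v ρ (χ.q (F z)) = y₀ + z • a := by
    have h2 : Tendsto (fun z => ms v ρ (χ.q (F z)) - (y₀ + z • a)) (𝓝 z₀) (𝓝 0) := by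
      have h3 := hmsa.continuousAt.tendsto
      rwa [hms0] at h3
    filter_upwards [hFX, hFU, h2.eventually (ball_mem_nhds 0 hδ)] with z h3 h4 h5
    obtain ⟨hq2, c, hc, h6⟩ := χ.surj _ h3.1 h4
    refine ⟨⟨c, hc, h6⟩, ?_⟩
    have h7 := G.tor.smul _ (χ.σ_mem _ hq2).1 c hc
    rw [← h6] at h7
    have h8 := hs.lift _ hq2
    have h9 := Λ.sub_mem (Λ.sub_mem h3.2 h7) h8
    have e : u (F z) - (y₀ + z • a) - (u (F z) - u (χ.σ (χ.q (F z)))) - (u (χ.σ (χ.q (F z))) - ms v ρ (χ.q (F z))) = ms v ρ (χ.q (F z)) - (y₀ + z • a) := by abel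
    rw [e] at h9
    exact sub_eq_zero.1 (hdisc _ h9 (mem_ball_zero_iff.1 h5))
  -- the section
  set ℓ : Vd (k + 1) → ℂ := fun y => z₀ + (y i - v i) / a i with hℓ
  have hℓa : ∀ y, AnalyticAt ℂ ℓ y := fun y => by
    refine analyticAt_const.add (AnalyticAt.div_const (AnalyticAt.sub ?_ analyticAt_const))
    exact (ContinuousLinearMap.proj (R := ℂ) (φ := fun _ : Fin (k + 1) => ℂ) i).analyticAt _
  have hℓ0 : ℓ v = z₀ := by
    rw [hℓ]
    simp
  set A : Vd (k + 1) → Vd (k + 2) := fun y => Fin.cons (α := fun _ => ℂ) (χ.q (F (ℓ y)) 0) ((ρ : ℂ)⁻¹ • (y - v)) with hA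
  have hA0 : A v = 0 := by
    funext j
    refine Fin.cases ?_ (fun j => ?_) j
    · show χ.q (F (ℓ v)) 0 = 0
      rw [hℓ0, hq0]
      rfl
    · show ((ρ : ℂ)⁻¹ • (v - v)) j = 0
      rw [sub_self, smul_zero]
      rfl
  have hAan : AnalyticAt ℂ A v := by
    refine analyticAt_pi_iff.2 fun j => ?_
    refine Fin.cases ?_ (fun j => ?_) j
    · have h1 : AnalyticAt ℂ (fun z => χ.q (F z) 0) (ℓ v) := by
        rw [hℓ0]
        exact analyticAt_pi_iff.1 hqa 0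
      exact AnalyticAt.fun_comp (f := ℓ) h1 (hℓa v)
    · have h1 : AnalyticAt ℂ (fun y : Vd (k + 1) => (ρ : ℂ)⁻¹ • (y - v)) v := by fun_prop
      exact analyticAt_pi_iff.1 h1 j
  have hSan : AnalyticAt ℂ (fun y => χ.σ (A y)) v := by
    have h1 : AnalyticAt ℂ χ.σ (A v) := by
      rw [hA0]
      exact χ.σ_an 0 (mem_ball_self two_pos)
    exact h1.fun_comp hAan
  have hAb : ∀ᶠ y in 𝓝 v, A y ∈ ball (0 : Vd (k + 2)) 2 := by
    have h1 := hAan.continuousAt.tendsto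
    rw [hA0] at h1
    exact h1.eventually (ball_mem_nhds 0 two_pos)
  obtain ⟨r₁, hr₁, hb₁⟩ := Metric.eventually_nhds_iff_ball.1 (hSan.eventually_analyticAt.and hAb)
  obtain ⟨r₂, hr₂, hb₂⟩ := Metric.eventually_nhds_iff_ball.1 hlift
  refine ⟨min r₁ r₂, fun y => χ.σ (A y), lt_min hr₁ hr₂, fun y hy => ?_, fun z hz => ?_⟩
  · obtain ⟨h1, h2⟩ := hb₁ y (ball_subset_ball (min_le_left _ _) hy)
    refine ⟨h1, (χ.σ_mem _ h2).1, ?_⟩
    have h3 := hs.lift _ h2
    have h4 : ms v ρ (A y) = y := by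
      have h5 : tl (A y) = (ρ : ℂ)⁻¹ • (y - v) := rfl
      rw [ms, h5, smul_smul, mul_inv_cancel₀ hρ0, one_smul, add_sub_cancel]
    rwa [h4] at h3
  · obtain ⟨⟨c, hc, h1⟩, h2⟩ := hb₂ z (ball_subset_ball (min_le_right _ _) hz)
    have h3 : y₀ + z • a - v = (z - z₀) • a := by
      rw [hv, sub_smul]
      abel
    have h4 : ℓ (y₀ + z • a) = z := by
      have h5 : (y₀ + z • a) i - v i = (z - z₀) * a i := by
        have := congrFun h3 i
        simpa using this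
      show z₀ + ((y₀ + z • a) i - v i) / a i = z
      rw [h5, mul_div_cancel_right₀ _ hi]
      ring
    have h5 : A (y₀ + z • a) = χ.q (F z) := by
      funext j
      refine Fin.cases ?_ (fun j => ?_) j
      · show χ.q (F (ℓ (y₀ + z • a))) 0 = _
        rw [h4]
      · show ((ρ : ℂ)⁻¹ • (y₀ + z • a - v)) j = χ.q (F z) j.succ
        have h6 : (ρ : ℂ) • tl (χ.q (F z)) = y₀ + z • a - v := by
          rw [ms] at h2
          rw [← h2]
          abel
        rw [← h6, smul_smul, inv_mul_cancel₀ hρ0, one_smul]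
        rfl
    show pr (χ.σ (A (y₀ + z • a))) = pr (F z)
    rw [h5]
    conv_rhs => rw [h1]
    exact (Pool.Agent.H62.EF.pr_smul _ hc).symm

end Pool.Agent.G3.R
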