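import Pool.Agent.H94.G4T.G3.R.Md
import Pool.Agent.H94.G4T.M92

/-!
# G3 R StepA: order zero, and the sequences of the proof by contradiction
-/

set_option autoImplicit false

open Topology Filter Metric

namespace Pool.Agent.G3.R

open Pool.Agent.H36.BP (EN fs wd)
open Pool.Agent.H14.PP (IsCone CurveAt Tan)
open Pool.Agent.H62.EF (MN pr)
open Pool.Agent.AD (Vd Chart Charts IsGerm)
open Pool.Agent.TG
open Pool.Agent.G3.C (Gc nv nd nv_pr)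
open Pool.Agent.G3.A

variable {N k : ℕ} {X : Set (EN N)} {Λ : AddSubgroup (Vd (k + 1))} {u : EN N → Vd (k + 1)} {D B Bad : Set (Vd (k + 1))} {a b w : Vd (k + 1)} {E : Submodule ℝ (Vd (k + 1))}
  {SS : Set (Vd (k + 1) → MN N)} {J : ℕ} {α : Fin J → VForm X Λ u} {c₀ C₀ ρ δ : ℝ}

/-- the sequences of the proof by contradiction -/
theorem step_seq (S : DA X Λ u D B Bad a α c₀ C₀ ρ δ) (hS : Shs X Λ u D a b E SS) (hw : w ∈ E) {m : ℕ} (hm : ∀ j ≤ m, DDb D (Tb b E) SS w j) (hno : ¬ DDb D (Tb b E) SS w (m + 1)) :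
    ∃ R : ℝ, ∀ n : ℕ, ∃ (σ : ℕ → ℝ) (Nb : ℝ) (φ : Vd (k + 1) → MN N) (y : Vd (k + 1)) (v : EN N), Nod (m + 1) σ (1 / ((n : ℝ) + 1)) ∧ (n : ℝ) ≤ Nb ∧ 1 ≤ Nb ∧
      (∀ ψ ∈ SS, ∀ y' ∈ Tb b E, y' ∈ Co D Bad δ ρ → ∀ v' : EN N, ‖v'‖ = 1 → pr v' = ψ y' → sz w (m + 1) σ ψ y' v' ≤ Nb) ∧ φ ∈ SS ∧ y ∈ Tb b E ∧ y ∈ Co D Bad δ ρ ∧ ‖y‖ ≤ R ∧ ‖v‖ = 1 ∧
      pr v = φ y ∧ Nb / 2 ≤ sz w (m + 1) σ φ y v := by
  unfold DDb at hno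
  push Not at hno
  obtain ⟨δ', hδ', hno⟩ := hno
  obtain ⟨r₁, K, hr₁, hK, hcg⟩ := core_to_gd S hS hw hm hδ'
  obtain ⟨r₂, hr₂, h2⟩ := nv_le_two hS S.lg hw (show 0 < 2 * δ by linarith [S.lc.δ_pos])
  obtain ⟨R, hR, hred⟩ := hS.red
  refine ⟨R, fun n => ?_⟩
  set rn : ℝ := min (1 / ((n : ℝ) + 1)) (min r₁ r₂) with hrn
  have hrn0 : 0 < rn := lt_min (by positivity) (lt_min hr₁ hr₂)
  obtain ⟨φ', hφ', y', hy', hyG', v', hv', hvφ', σ, hσ, hbig⟩ := hno rn (K * ((n : ℝ) + 2)) hrn0 (by positivity)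
  have hσ1 : Nod (m + 1) σ (1 / ((n : ℝ) + 1)) := hσ.mono le_rfl (min_le_left _ _)
  have hσ2 : Nod (m + 1) σ r₁ := hσ.mono le_rfl ((min_le_right _ _).trans (min_le_left _ _))
  have hσ3 : Nod (m + 1) σ r₂ := hσ.mono le_rfl ((min_le_right _ _).trans (min_le_right _ _))
  -- the supremum over the core
  set A : Set ℝ := {x | ∃ ψ ∈ SS, ∃ y ∈ Tb b E, y ∈ Co D Bad δ ρ ∧ ∃ v : EN N, ‖v‖ = 1 ∧ pr v = ψ y ∧ x = sz w (m + 1) σ ψ y v} with hA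
  have hbdd : BddAbove A := by
    refine ⟨∑ i ∈ Finset.range (m + 1 + 1), |dw (m + 1) σ i| * 2, ?_⟩
    rintro x ⟨ψ, hψ, y, hy, hyC, v, hv, hvψ, rfl⟩
    unfold sz dd
    refine (norm_sum_le _ _).trans (Finset.sum_le_sum fun i hi => ?_)
    rw [norm_smul, Complex.norm_real, Real.norm_eq_abs]
    refine mul_le_mul_of_nonneg_left (h2 ψ hψ y hy hyC.1 v hv hvψ (σ i) (hσ3.le i ?_)) (abs_nonneg _)
    have := Finset.mem_range.1 hi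
    omega
  obtain ⟨Nb, hNb1, hNbA, hNbx⟩ := near_max hbdd
  have hcore : ∀ ψ ∈ SS, ∀ y' ∈ Tb b E, y' ∈ Co D Bad δ ρ → ∀ v' : EN N, ‖v'‖ = 1 → pr v' = ψ y' → sz w (m + 1) σ ψ y' v' ≤ Nb :=
    fun ψ hψ y hy hyC v hv hvψ => hNbA _ ⟨ψ, hψ, y, hy, hyC, v, hv, hvψ, rfl⟩
  have h3 := hcg σ Nb hσ2 hNb1 hcore φ' hφ' y' hy' hyG' v' hv' hvφ'
  have h4 : (n : ℝ) + 2 < Nb := by
    have h5 : K * ((n : ℝ) + 2) < K * Nb := hbig.trans_le h3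
    exact lt_of_mul_lt_mul_left h5 hK.le
  have hn0 : (0 : ℝ) ≤ n := Nat.cast_nonneg n
  obtain ⟨x, ⟨φ, hφ, y, hy, hyC, v, hv, hvφ, rfl⟩, hx⟩ := hNbx (by linarith)
  obtain ⟨l, hl, hlE, φt, hφt, yt, hyt, hytR, rfl, hφe⟩ := hred φ hφ y hy
  refine ⟨σ, Nb, φt, yt, v, hσ1, by linarith, hNb1, hcore, hφt, hyt, (co_add S.lg hl).1 hyC, hytR, hv, ?_, ?_⟩
  · rw [hvφ]
    have h5 := hφe 0 E.zero_mem
    rw [add_zero, add_zero] at h5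
    exact h5.symm
  · have h6 : sz w (m + 1) σ φt yt v = sz w (m + 1) σ φ (yt + l) v := by
      unfold sz
      congr 1
      exact dd_congr fun i _ => by rw [hφe _ (smul_mem_E hw (σ i))]
    rw [h6]
    exact hx

end Pool.Agent.G3.R
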